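import Mathlib
import Pool.Agent.MP_89824e_co.Chain

section

namespace Pool.Agent.MP_89824e_co

def l0 : List ℕ :=
  [3, 4, 5, 6, 7, 8, 9, 10, 0, 1, 2, 18, 19, 20, 21, 11, 12, 13, 14, 15, 16, 17, 23, 24, 25,
   26, 27, 28, 29, 30, 31, 32, 22, 42, 43, 33, 34, 35, 36, 37, 38, 39, 40, 41, 49, 50, 51, 52,
   53, 54, 44, 45, 46, 47, 48, 38, 42, 35, 39, 43, 36, 40, 33, 37, 41, 34, 65, 55, 56, 57, 58,
   59, 60, 61, 62, 63, 64, 66, 67, 68, 69, 70, 71, 72, 73, 74, 75, 76, 8, 9, 10, 0, 1, 2, 3,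
   4, 5, 6, 7, 77, 78, 79, 80, 81, 82, 83, 84, 85, 86, 87, 14, 16, 18, 20, 11, 13, 15, 17, 19,
   21, 12, 25, 32, 28, 24, 31, 27, 23, 30, 26, 22, 29, 126, 127, 128, 129, 130, 131, 121, 122,
   123, 124, 125, 109, 102, 106, 99, 103, 107, 100, 104, 108, 101, 105, 54, 52, 50, 48, 46,
   44, 53, 51, 49, 47, 45]

def l1 : List ℕ :=
  [99, 100, 101, 102, 103, 104, 105, 106, 107, 108, 109, 82, 77, 83, 78, 84, 79, 85, 80, 86,
   81, 87, 142, 139, 136, 133, 141, 138, 135, 132, 140, 137, 134, 75, 67, 70, 73, 76, 68, 71,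
   74, 66, 69, 72, 152, 146, 151, 145, 150, 144, 149, 143, 148, 153, 147, 110, 111, 112, 113,
   114, 115, 116, 117, 118, 119, 120, 133, 135, 137, 139, 141, 132, 134, 136, 138, 140, 142,
   113, 114, 115, 116, 117, 118, 119, 120, 110, 111, 112, 162, 154, 157, 160, 163, 155, 158,
   161, 164, 156, 159, 96, 97, 98, 88, 89, 90, 91, 92, 93, 94, 95, 88, 89, 90, 91, 92, 93, 94,
   95, 96, 97, 98, 61, 56, 62, 57, 63, 58, 64, 59, 65, 60, 55, 150, 146, 153, 149, 145, 152,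
   148, 144, 151, 147, 143, 155, 156, 157, 158, 159, 160, 161, 162, 163, 164, 154, 122, 130,
   127, 124, 121, 129, 126, 123, 131, 128, 125]

def m0 : List ℕ :=
  [8, 9, 10, 0, 1, 2, 3, 4, 5, 6, 7, 15, 16, 17, 18, 19, 20, 21, 11, 12, 13, 14, 32, 22, 23,
   24, 25, 26, 27, 28, 29, 30, 31, 35, 36, 37, 38, 39, 40, 41, 42, 43, 33, 34, 50, 51, 52, 53,
   54, 44, 45, 46, 47, 48, 49, 67, 68, 69, 70, 71, 72, 73, 74, 75, 76, 66, 41, 34, 38, 42, 35,
   39, 43, 36, 40, 33, 37, 12, 14, 16, 18, 20, 11, 13, 15, 17, 19, 21, 102, 103, 104, 105,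
   106, 107, 108, 109, 99, 100, 101, 0, 1, 2, 3, 4, 5, 6, 7, 8, 9, 10, 55, 56, 57, 58, 59, 60,
   61, 62, 63, 64, 65, 138, 139, 140, 141, 142, 132, 133, 134, 135, 136, 137, 29, 25, 32, 28,
   24, 31, 27, 23, 30, 26, 22, 51, 49, 47, 45, 54, 52, 50, 48, 46, 44, 53, 89, 93, 97, 90, 94,
   98, 91, 95, 88, 92, 96]

def m1 : List ℕ :=
  [91, 92, 93, 94, 95, 96, 97, 98, 88, 89, 90, 114, 120, 115, 110, 116, 111, 117, 112, 118,
   113, 119, 130, 127, 124, 121, 129, 126, 123, 131, 128, 125, 122, 62, 65, 57, 60, 63, 55,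
   58, 61, 64, 56, 59, 159, 164, 158, 163, 157, 162, 156, 161, 155, 160, 154, 131, 122, 124,
   126, 128, 130, 121, 123, 125, 127, 129, 77, 78, 79, 80, 81, 82, 83, 84, 85, 86, 87, 99,
   100, 101, 102, 103, 104, 105, 106, 107, 108, 109, 110, 111, 112, 113, 114, 115, 116, 117,
   118, 119, 120, 146, 149, 152, 144, 147, 150, 153, 145, 148, 151, 143, 85, 86, 87, 77, 78,
   79, 80, 81, 82, 83, 84, 158, 154, 161, 157, 164, 160, 156, 163, 159, 155, 162, 71, 66, 72,
   67, 73, 68, 74, 69, 75, 70, 76, 142, 139, 136, 133, 141, 138, 135, 132, 140, 137, 134, 153,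
   143, 144, 145, 146, 147, 148, 149, 150, 151, 152]

def lg : List ℕ :=
  [3, 57, 113, 102, 35, 91, 80, 70, 0, 69, 58, 48, 89, 19, 104, 54, 111, 118, 150, 154, 86,
   82, 34, 67, 135, 149, 161, 51, 143, 155, 130, 60, 36, 31, 7, 30, 98, 128, 101, 163, 152,
   92, 137, 106, 17, 119, 127, 25, 138, 85, 21, 64, 133, 121, 74, 2, 68, 29, 151, 145, 120,
   44, 125, 134, 114, 4, 1, 10, 79, 131, 140, 47, 84, 159, 164, 32, 59, 9, 90, 16, 162, 75,
   53, 15, 147, 96, 122, 71, 8, 42, 126, 94, 124, 77, 144, 37, 105, 18, 81, 6, 112, 20, 88,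
   33, 160, 116, 141, 99, 139, 39, 5, 56, 132, 108, 157, 12, 49, 63, 153, 11, 103, 50, 38,
   142, 28, 72, 46, 78, 136, 95, 65, 93, 52, 100, 73, 109, 129, 115, 45, 55, 22, 123, 43, 41,
   110, 26, 97, 62, 146, 87, 148, 23, 13, 61, 40, 66, 14, 27, 156, 117, 158, 76, 107, 24, 83]

def lgi : List ℕ :=
  [8, 66, 55, 0, 65, 110, 99, 34, 88, 77, 67, 119, 115, 152, 156, 83, 79, 44, 97, 13, 101, 50,
   140, 151, 163, 47, 145, 157, 124, 57, 35, 33, 75, 103, 22, 4, 32, 95, 122, 109, 154, 143,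
   89, 142, 61, 138, 126, 71, 11, 116, 121, 27, 132, 82, 15, 139, 111, 1, 10, 76, 31, 153,
   147, 117, 51, 130, 155, 23, 56, 9, 7, 87, 125, 134, 54, 81, 161, 93, 127, 68, 6, 98, 21,
   164, 72, 49, 20, 149, 102, 12, 78, 5, 41, 131, 91, 129, 85, 146, 36, 107, 133, 38, 3, 120,
   14, 96, 43, 162, 113, 135, 144, 16, 100, 2, 64, 137, 105, 159, 17, 45, 60, 53, 86, 141, 92,
   62, 90, 46, 37, 136, 30, 69, 112, 52, 63, 24, 128, 42, 48, 108, 70, 106, 123, 28, 94, 59,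
   148, 84, 150, 25, 18, 58, 40, 118, 19, 29, 158, 114, 160, 73, 104, 26, 80, 39, 74]

def la : List ℕ :=
  [0, 69, 58, 3, 57, 113, 102, 35, 91, 80, 70, 111, 118, 150, 154, 86, 82, 48, 89, 19, 104,
   54, 135, 149, 161, 51, 143, 155, 130, 60, 36, 34, 67, 106, 31, 7, 30, 98, 128, 101, 163,
   152, 92, 137, 64, 133, 121, 74, 17, 119, 127, 25, 138, 85, 21, 134, 114, 4, 2, 68, 29, 151,
   145, 120, 44, 125, 164, 32, 59, 1, 10, 79, 131, 140, 47, 84, 159, 96, 122, 71, 9, 90, 16,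
   162, 75, 53, 15, 147, 105, 18, 81, 8, 42, 126, 94, 124, 77, 144, 37, 99, 139, 39, 6, 112,
   20, 88, 33, 160, 116, 141, 153, 11, 103, 5, 56, 132, 108, 157, 12, 49, 63, 46, 78, 136, 95,
   65, 93, 50, 38, 142, 28, 72, 115, 45, 55, 22, 123, 43, 52, 100, 73, 109, 129, 26, 97, 62,
   146, 87, 148, 23, 13, 61, 41, 110, 14, 27, 156, 117, 158, 76, 107, 24, 83, 40, 66]

def masks : List ℕ :=
  [1, 633825300114114700748351602696, 5149830714542909395409003610176,
   23384026197294457116417804294428554159374819394080,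
   5846006560255266131703072841058812048687517139202,
   1461591540104378619147935501477162447877695438865,
   548799234684177215268050444888086626382116822152,
   3808080202256359296246281089743272352231686341828,
   27259973049405851125673660571669050146469288410676,
   21555610028729359975255500710929244234229349304822,
   46299558339455502291711091797339232706825310175155,
   46768052394588882957359068884952637375033955581919,
   46768052394588893382515438766842485868440043126527,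
   46768052394588893382517914646921056628989841375230,
   46768052394588893382517914646921056628989841375231]

abbrev X := Fin 165

def tab (l : List ℕ) (x : X) : X := Fin.ofNat 165 (l.getD x 0)

def A1 (x y : X) : Prop := y = tab l0 x ∨ y = tab l1 x

instance : DecidableRel A1 := fun x y => by unfold A1; infer_instance

def gP : Equiv.Perm X :=
  ⟨tab lg, tab lgi, fun x => by revert x; decide +kernel, fun x => by revert x; decide +kernel⟩

def aP : Equiv.Perm X :=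
  ⟨tab la, tab la, fun x => by revert x; decide +kernel, fun x => by revert x; decide +kernel⟩

lemma gP_apply (x : X) : gP x = tab lg x := rfl
lemma aP_apply (x : X) : aP x = tab la x := rfl

lemma out2_A1 : Out2 A1 := by
  have h : ∀ x : X, tab l0 x ≠ tab l1 x := by decide +kernel
  exact fun x => ⟨_, _, h x, fun _ => Iff.rfl⟩

lemma loop_A1 : ∀ x : X, ¬ A1 x x := by decide +kernel

lemma isAut_of (φ : Equiv.Perm X)
    (h : ∀ x, (φ (tab l0 x) = tab l0 (φ x) ∧ φ (tab l1 x) = tab l1 (φ x)) ∨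
      (φ (tab l0 x) = tab l1 (φ x) ∧ φ (tab l1 x) = tab l0 (φ x))) : IsAut A1 φ := by
  intro x y
  unfold A1
  rcases h x with ⟨h1, h2⟩ | ⟨h1, h2⟩
  · rw [← h1, ← h2]; simp
  · rw [← h1, ← h2]; simp [or_comm]

lemma g_aut : gP ∈ autG A1 := isAut_of _ (by simp only [gP_apply]; decide +kernel)
lemma a_aut : aP ∈ autG A1 := isAut_of _ (by simp only [aP_apply]; decide +kernel)

lemma g_pow5 : gP ^ 5 = 1 := by
  have h : ∀ x : X, tab lg (tab lg (tab lg (tab lg (tab lg x)))) = x := by decide +kernel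
  ext x : 1
  simpa [pow_succ, gP_apply] using h x

def w1 (x : X) : X := tab lg (tab la (tab lg (tab la x)))

lemma a_word : aP = (gP * (aP * gP * aP⁻¹)) ^ 5 * gP := by
  have h : ∀ x : X, tab la x = w1 (w1 (w1 (w1 (w1 (tab lg x))))) := by decide +kernel
  have h2 : ∀ x : X, (gP * (aP * gP * aP⁻¹)) x = w1 x := fun x => rfl
  ext x : 1
  simp only [pow_succ, pow_zero, one_mul, Equiv.Perm.mul_apply (_ * _), h2]
  exact h x

/-- the base walk -/
def pp (n : ℕ) : X := (gP ^ n) 0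

lemma pp0 : pp 0 = 0 := rfl
lemma pp_succ (n : ℕ) : pp (n + 1) = gP (pp n) := by simp [pp, pow_succ']
lemma pp1 : pp 1 = 3 := by rw [pp_succ, pp0, gP_apply]; decide +kernel
lemma pp2 : pp 2 = 102 := by rw [pp_succ, pp1, gP_apply]; decide +kernel
lemma pp3 : pp 3 = 88 := by rw [pp_succ, pp2, gP_apply]; decide +kernel
lemma pp5 : pp 5 = 0 := by simp [pp, g_pow5]

lemma pp_arc (n : ℕ) : A1 (pp n) (pp (n + 1)) := by
  induction n with
  | zero => rw [pp0, pp1]; decide +kernel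
  | succ n ih => rw [pp_succ (n + 1), pp_succ n]; exact (g_aut _ _).2 (pp_succ n ▸ ih)

lemma rigid1 {y : X} (h1 : A1 (pp 2) y) (h2 : Wk A1 2 y 0) : y = pp 3 := by
  have h : ∀ y : X, A1 102 y → ∀ z : X, A1 y z → A1 z 0 → y = 88 := by decide +kernel
  obtain ⟨z, ⟨y', h3, h4⟩, h5⟩ := h2
  obtain rfl : y = y' := h3
  rw [pp3]; rw [pp2] at h1
  exact h y h1 z h4 h5

lemma wk14 (y : X) : Wk A1 14 0 y := by
  have h0 : ∀ y : X, (masks.getD 0 0).testBit y → 0 = y := by decide +kernel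
  have h1 : ∀ n : Fin 14, ∀ y : X, (masks.getD (n + 1) 0).testBit y →
      (masks.getD n 0).testBit (tab m0 y) ∨ (masks.getD n 0).testBit (tab m1 y) := by
    decide +kernel
  have h2 : ∀ y : X, A1 (tab m0 y) y ∧ A1 (tab m1 y) y := by decide +kernel
  have h3 : ∀ y : X, (masks.getD 14 0).testBit y := by decide +kernel
  have key : ∀ n ≤ 14, ∀ y : X, (masks.getD n 0).testBit y → Wk A1 n 0 y := by
    intro n
    induction n with
    | zero => exact fun _ y hy => h0 y hy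
    | succ n ih =>
      intro hn y hy
      rcases h1 ⟨n, by omega⟩ y hy with h | h
      · exact ⟨_, ih (by omega) _ h, (h2 y).1⟩
      · exact ⟨_, ih (by omega) _ h, (h2 y).2⟩
  exact key 14 le_rfl y (h3 y)

lemma wk15 (y : X) : Wk A1 15 0 y := by
  have h2 : ∀ y : X, A1 (tab m0 y) y := by decide +kernel
  exact ⟨_, wk14 _, h2 y⟩

lemma swaps1 {U : Subgroup (Equiv.Perm X)} (hg : gP ∈ U) (ha : aP ∈ U) :
    ∀ k < 2, ∃ α ∈ St U pp k, α (pp (k + 1)) ≠ pp (k + 1) := by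
  have e0 : aP (pp 0) = pp 0 := by rw [pp0, aP_apply]; decide +kernel
  have e1 : aP (pp 1) = pp 1 := by rw [pp1, aP_apply]; decide +kernel
  have e2 : aP (pp 2) ≠ pp 2 := by rw [pp2, aP_apply]; decide +kernel
  intro k hk
  interval_cases k
  · refine ⟨gP⁻¹ * aP * gP, ⟨U.mul_mem (U.mul_mem (U.inv_mem hg) ha) hg, fun i hi => ?_⟩, ?_⟩
    · obtain rfl : i = 0 := by omega
      simp only [Equiv.Perm.mul_apply]
      rw [← pp_succ, e1, pp_succ]; simp
    · simp only [Equiv.Perm.mul_apply]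
      rw [← pp_succ, Ne, Equiv.Perm.inv_eq_iff_eq, ← pp_succ]
      exact e2
  · refine ⟨aP, ⟨ha, fun i hi => ?_⟩, e2⟩
    interval_cases i
    exacts [e0, e1]

lemma trans1 {U : Subgroup (Equiv.Perm X)} (hU : U ≤ autG A1) (hg : gP ∈ U) (ha : aP ∈ U) :
    ∀ x y, ∃ γ ∈ U, γ x = y := by
  refine trans_of hU (x0 := pp 0) (fun y => (wk14 y).rtg) (fun z hz => ?_)
  obtain ⟨α, hα, hm⟩ := swaps1 hg ha 0 (by omega)
  have hA := (hU hα.1 : IsAut A1 α).adj (hα.2 0 le_rfl) (pp_arc 0)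
  rcases out2_A1.two (pp_arc 0) hA hz hm.symm with h | h
  · exact ⟨gP, hg, by rw [h, pp_succ]⟩
  · exact ⟨α * gP, U.mul_mem hα.1 hg, by rw [h, pp_succ]; rfl⟩

lemma St1_one : ∀ φ ∈ St (autG A1) pp 2, φ = 1 := by
  refine St_eq_one out2_A1 le_rfl le_rfl (trans1 le_rfl g_aut a_aut) pp_arc 2
    (swaps1 g_aut a_aut) (fun φ hφ => ?_) (fun y => ?_)
  · have hφ' : IsAut A1 φ := hφ.1
    refine rigid1 (hφ'.adj (hφ.2 2 le_rfl) (pp_arc 2)) ?_
    have h1 : Wk A1 2 (pp 3) (pp (3 + 2)) := wk_of_path pp 3 2 (fun k _ => pp_arc _)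
    have h2 := h1.map hφ'
    have h3 : φ 0 = 0 := hφ.2 0 (by omega)
    rwa [show 3 + 2 = 5 from rfl, pp5, h3] at h2
  · have h1 : Wk A1 3 (pp 2) (pp (2 + 3)) := wk_of_path pp 2 3 (fun k _ => pp_arc _)
    rw [show 2 + 3 = 5 from rfl, pp5] at h1
    exact h1.rtg.trans (wk14 y).rtg

lemma card_St1 : Nat.card (St (autG A1) pp 0) = 4 :=
  card_St out2_A1 le_rfl pp_arc 2 (swaps1 g_aut a_aut) St1_one

lemma pow4_of_fix {t : Equiv.Perm X} (ht : t ∈ autG A1) (h0 : t 0 = 0) : t ^ 4 = 1 := by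
  have hm : t ∈ St (autG A1) pp 0 := ⟨ht, fun i hi => by
    obtain rfl : i = 0 := by omega
    exact h0⟩
  have := pow_card_eq_one' (x := (⟨t, hm⟩ : St (autG A1) pp 0))
  rw [card_St1] at this
  simpa using congrArg Subtype.val this

lemma T_normal {N : Subgroup (Equiv.Perm X)} (hN : N ≤ autG A1) (hg : gP ∈ N)
    (hc : ∀ u ∈ autG A1, ∀ n ∈ N, u * n * u⁻¹ ∈ N) : autG A1 ≤ N := by
  have ha : aP ∈ N := by
    rw [a_word]
    exact N.mul_mem (N.pow_mem (N.mul_mem hg (hc _ a_aut _ hg)) 5) hg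
  refine le_of_trans_St hN (trans1 hN hg ha) (v := pp) ?_
  refine St_le_of_swaps out2_A1 le_rfl pp_arc 2 (fun k hk => ?_) St1_one
  obtain ⟨α, hα, hm⟩ := swaps1 hg ha k hk
  exact ⟨α, ⟨hN hα.1, hα.2⟩, hα.1, hm⟩

lemma T_min {P : Subgroup (Equiv.Perm X)} (hP : P ≤ autG A1) (ht : ∀ y, ∃ u ∈ P, u 0 = y) :
    autG A1 ≤ P := by
  classical
  let T := autG A1
  let P' : Subgroup T := P.subgroupOf T
  have hcard : Nat.card (T ⧸ P') ≤ 4 := by
    rw [← card_St1]
    refine Nat.card_le_card_of_surjective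
      (fun s : St (autG A1) pp 0 => ((⟨s.1, s.2.1⟩ : T) : T ⧸ P')) ?_
    intro q
    obtain ⟨t, rfl⟩ := QuotientGroup.mk_surjective q
    obtain ⟨u, hu, h0⟩ := ht ((t : Equiv.Perm X)⁻¹ 0)
    refine ⟨⟨t * u, T.mul_mem t.2 (hP hu), fun i hi => ?_⟩, ?_⟩
    · obtain rfl : i = 0 := by omega
      rw [pp0, Equiv.Perm.mul_apply, h0]; simp
    · rw [eq_comm, QuotientGroup.eq]
      simpa [P', Subgroup.mem_subgroupOf] using hu
  let ψ := MulAction.toPermHom T (T ⧸ P')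
  have hg : ψ ⟨gP, g_aut⟩ = 1 := by
    have h5 : (ψ ⟨gP, g_aut⟩) ^ 5 = 1 := by
      rw [← map_pow]
      have : (⟨gP, g_aut⟩ : T) ^ 5 = 1 := Subtype.ext g_pow5
      rw [this, map_one]
    have h24 : (ψ ⟨gP, g_aut⟩) ^ 24 = 1 := by
      have h1 := pow_card_eq_one' (x := ψ ⟨gP, g_aut⟩)
      rw [Nat.card_perm] at h1
      obtain ⟨c, hc⟩ : (Nat.card (T ⧸ P')).factorial ∣ 24 := Nat.factorial_dvd_factorial hcard
      rw [hc, pow_mul, h1, one_pow]
    calc ψ ⟨gP, g_aut⟩ = (ψ ⟨gP, g_aut⟩) ^ 24 * ψ ⟨gP, g_aut⟩ := by rw [h24, one_mul]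
      _ = ((ψ ⟨gP, g_aut⟩) ^ 5) ^ 5 := by rw [← pow_succ, ← pow_mul]
      _ = 1 := by rw [h5, one_pow]
  have hN : autG A1 ≤ ψ.ker.map T.subtype := by
    refine T_normal (fun _ ⟨x, _, h⟩ => h ▸ x.2) ⟨⟨gP, g_aut⟩, hg, rfl⟩ ?_
    rintro u hu _ ⟨n, hn, rfl⟩
    exact ⟨⟨u, hu⟩ * n * (⟨u, hu⟩ : T)⁻¹, ψ.normal_ker.conj_mem n hn _, rfl⟩
  intro t ht
  obtain ⟨n, hn, rfl⟩ := hN ht
  have h1 : ψ n ((1 : T) : T ⧸ P') = ((1 : T) : T ⧸ P') := by
    rw [show ψ n = 1 from hn]; rfl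
  have h2 : ((n * 1 : T) : T ⧸ P') = ((1 : T) : T ⧸ P') := h1
  rw [eq_comm, QuotientGroup.eq] at h2
  simpa [P', Subgroup.mem_subgroupOf] using h2

end Pool.Agent.MP_89824e_co

end

section

namespace Pool.Agent.MP_89824e_co

abbrev PV (m : ℕ) := (ZMod m → X) × ZMod m

variable {m : ℕ}

def PA (u w : PV m) : Prop :=
  w.2 = u.2 + 1 ∧ A1 (u.1 u.2) (w.1 u.2) ∧ ∀ t, t ≠ u.2 → w.1 t = u.1 t

lemma out2_PA : Out2 (PA (m := m)) := by
  classical
  rintro ⟨x, i⟩
  obtain ⟨y, z, hyz, h⟩ := out2_A1 (x i)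
  refine ⟨(Function.update x i y, i + 1), (Function.update x i z, i + 1), ?_, ?_⟩
  · intro h1
    have := congrFun (congrArg Prod.fst h1) i
    simp at this
    exact hyz this
  · rintro ⟨w, j⟩
    have key : ∀ c : X, ((w, j) : PV m) = (Function.update x i c, i + 1) ↔
        j = i + 1 ∧ w i = c ∧ ∀ t, t ≠ i → w t = x t := by
      intro c
      rw [Prod.mk.injEq, and_comm, Function.eq_update_iff]
    rw [key, key]
    simp only [PA, h]
    tauto

lemma loop_PA (u : PV m) : ¬ PA u u := fun h => loop_A1 _ h.2.1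

def cnt (j : ZMod m) : ℕ → ℕ
  | 0 => 0
  | k + 1 => cnt j k + if (k : ZMod m) = j then 1 else 0

lemma cnt_succ (j : ZMod m) (k : ℕ) :
    cnt j (k + 1) = cnt j k + if (k : ZMod m) = j then 1 else 0 := rfl

lemma cnt_mono (j : ZMod m) : Monotone (cnt j) :=
  monotone_nat_of_le_succ fun k => by rw [cnt_succ]; omega

variable [NeZero m]

lemma cnt_le (j : ZMod m) (k : ℕ) (hk : k ≤ m) : cnt j k = if j.val < k then 1 else 0 := by
  induction k with
  | zero => simp [cnt]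
  | succ k ih =>
    rw [cnt_succ, ih (by omega)]
    have h : (k : ZMod m) = j ↔ j.val = k := by
      constructor
      · rintro rfl; exact ZMod.val_cast_of_lt (by omega)
      · rintro rfl; simp
    simp only [h]
    split_ifs <;> omega

lemma cnt_add (j : ZMod m) (k : ℕ) : cnt j (k + m) = cnt j k + 1 := by
  induction k with
  | zero => rw [zero_add, cnt_le j m le_rfl, if_pos (ZMod.val_lt j)]; rfl
  | succ k ih =>
    rw [show k + 1 + m = (k + m) + 1 by ring, cnt_succ, cnt_succ, ih]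
    simp only [Nat.cast_add, ZMod.natCast_self, add_zero]
    ring

lemma cnt_mul (j : ZMod m) (c k : ℕ) : cnt j (c * m + k) = c + cnt j k := by
  induction c with
  | zero => simp
  | succ c ih => rw [show (c + 1) * m + k = (c * m + k) + m by ring, cnt_add, ih]; ring

def vv (p : ZMod m → ℕ → X) (k : ℕ) : PV m := (fun j => p j (cnt j k), (k : ZMod m))

omit [NeZero m] in
lemma vv_arc (p : ZMod m → ℕ → X) (k : ℕ)
    (h : A1 (p k (cnt (k : ZMod m) k)) (p k (cnt (k : ZMod m) k + 1))) :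
    PA (vv p k) (vv p (k + 1)) := by
  refine ⟨by simp [vv], ?_, fun t ht => ?_⟩
  · simpa [vv, cnt_succ] using h
  · have : ¬ ((k : ZMod m) = t) := fun h => ht h.symm
    simp [vv, cnt_succ, this]

omit [NeZero m] in
lemma wk_proj (s n : ℕ) {u w : PV m} (hu : u.2 = (s : ZMod m)) (h : Wk PA n u w) :
    w.2 = ((s + n : ℕ) : ZMod m) ∧
      ∃ c, cnt (0 : ZMod m) (s + n) = cnt (0 : ZMod m) s + c ∧ Wk A1 c (u.1 0) (w.1 0) := by
  induction n generalizing w with
  | zero =>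
    obtain rfl : u = w := h
    exact ⟨hu, 0, rfl, rfl⟩
  | succ n ih =>
    obtain ⟨y, h1, h2⟩ := h
    obtain ⟨h3, c, h4, h5⟩ := ih h1
    refine ⟨by rw [h2.1, h3]; push_cast; ring, ?_⟩
    rw [← add_assoc, cnt_succ, h4, ← h3]
    by_cases h0 : y.2 = 0
    · refine ⟨c + 1, by rw [if_pos h0]; ring, y.1 0, h5, ?_⟩
      have := h2.2.1
      rwa [h0] at this
    · refine ⟨c, by rw [if_neg h0]; ring, ?_⟩
      rw [h2.2.2 0 (fun h => h0 h.symm)]; exact h5

/-- the base walk of the product -/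
def bv (m : ℕ) : ℕ → PV m := vv (fun _ => pp)

omit [NeZero m] in
lemma bv_arc (k : ℕ) : PA (bv m k) (bv m (k + 1)) := vv_arc _ k (pp_arc _)

lemma bv5 : bv m (5 * m) = bv m 0 := by
  have : ∀ j : ZMod m, cnt j (5 * m) = 5 := fun j => by simpa [cnt] using cnt_mul j 5 0
  simp [bv, vv, this, cnt, pp5, pp0]

lemma reach0 (y : PV m) : Relation.ReflTransGen PA (bv m 0) y := by
  obtain ⟨y, i⟩ := y
  have hw : ∀ j : ZMod m, Wk A1 (cnt j (14 * m + i.val)) 0 (y j) := by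
    intro j
    rw [cnt_mul, cnt_le j _ (ZMod.val_lt i).le]
    split_ifs
    exacts [wk15 _, wk14 _]
  choose p h0 hn hp using fun j => (hw j).path
  have h1 : Wk PA (14 * m + i.val) (vv p 0) (vv p (0 + (14 * m + i.val))) := by
    refine wk_of_path (vv p) 0 _ (fun k hk => ?_)
    rw [zero_add]
    refine vv_arc p k (hp _ _ ?_)
    have h2 := cnt_mono (k : ZMod m) (show k + 1 ≤ 14 * m + i.val by omega)
    rw [cnt_succ, if_pos rfl] at h2
    omega
  have e0 : vv p 0 = bv m 0 := by simp [bv, vv, cnt, h0, pp0]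
  have e1 : vv p (0 + (14 * m + i.val)) = (y, i) := by
    simp [vv, hn]
  rw [e0, e1] at h1
  exact h1.rtg

lemma reach2 (y : PV m) : Relation.ReflTransGen PA (bv m (2 * m)) y := by
  have h1 : Wk PA (3 * m) (bv m (2 * m)) (bv m (2 * m + 3 * m)) :=
    wk_of_path (bv m) _ _ (fun k _ => bv_arc _)
  rw [show 2 * m + 3 * m = 5 * m by ring, bv5] at h1
  exact h1.rtg.trans (reach0 y)

lemma rigidP (φ : Equiv.Perm (PV m)) (hφ : φ ∈ St (autG PA) (bv m) (2 * m)) :
    φ (bv m (2 * m + 1)) = bv m (2 * m + 1) := by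
  have hm : 0 < m := Nat.pos_of_ne_zero (NeZero.ne m)
  have hφ' : IsAut PA φ := hφ.1
  have hA := hφ'.adj (hφ.2 _ le_rfl) (bv_arc (2 * m))
  have h1 : Wk PA (3 * m - 1) (bv m (2 * m + 1)) (bv m (2 * m + 1 + (3 * m - 1))) :=
    wk_of_path (bv m) _ _ (fun k _ => bv_arc _)
  rw [show 2 * m + 1 + (3 * m - 1) = 5 * m by omega, bv5] at h1
  have h2 := h1.map hφ'
  rw [hφ.2 0 (by omega)] at h2
  set u := φ (bv m (2 * m + 1)) with hu
  have l0 : (bv m (2 * m)).2 = 0 := by simp [bv, vv]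
  have c2 : ∀ j : ZMod m, cnt j (2 * m) = 2 := fun j => by simpa [cnt] using cnt_mul j 2 0
  have c3 : cnt (0 : ZMod m) (2 * m + 1) = 3 := by rw [cnt_succ, c2]; simp
  have c5 : cnt (0 : ZMod m) (5 * m) = 5 := by simpa [cnt] using cnt_mul (0 : ZMod m) 5 0
  have hu2 : u.2 = ((2 * m + 1 : ℕ) : ZMod m) := by rw [hA.1, l0]; simp
  obtain ⟨-, c, h4, h5⟩ := wk_proj (2 * m + 1) _ hu2 h2
  rw [show 2 * m + 1 + (3 * m - 1) = 5 * m by omega, c5, c3] at h4
  obtain rfl : c = 2 := by omega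
  have h6 : A1 (pp 2) (u.1 0) := by
    have := hA.2.1
    rw [l0] at this
    simpa [bv, vv, c2] using this
  have h7 : u.1 0 = pp 3 := rigid1 h6 (by simpa [bv, vv, cnt, pp0] using h5)
  refine Prod.ext (funext fun t => ?_) hu2
  by_cases ht : t = 0
  · subst ht; rw [h7]; simp only [bv, vv, c3]
  · rw [hA.2.2 t (by rw [l0]; exact ht)]
    have : ¬ ((0 : ZMod m) = t) := fun h => ht h.symm
    simp [bv, vv, cnt_succ, this]

/-- the wreath product -/
def WG (m : ℕ) : Subgroup (Equiv.Perm (PV m)) where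
  carrier := {φ | ∃ (c : ZMod m) (t : ZMod m → Equiv.Perm X), (∀ j, t j ∈ autG A1) ∧
    ∀ u, φ u = (fun j => t j (u.1 (j - c)), u.2 + c)}
  one_mem' := ⟨0, 1, fun _ => (autG A1).one_mem, fun u => by simp⟩
  mul_mem' := by
    rintro a b ⟨c, t, ht, ha⟩ ⟨c', t', ht', hb⟩
    refine ⟨c' + c, fun j => t j * t' (j - c), fun j => (autG A1).mul_mem (ht _) (ht' _),
      fun u => ?_⟩
    rw [Equiv.Perm.mul_apply, ha, hb]
    simp only [Equiv.Perm.mul_apply, add_assoc, sub_sub, add_comm c c']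
  inv_mem' := by
    rintro a ⟨c, t, ht, ha⟩
    refine ⟨-c, fun j => (t (j + c))⁻¹, fun j => (autG A1).inv_mem (ht _), fun u => ?_⟩
    rw [Equiv.Perm.inv_eq_iff_eq, ha]
    simp

omit [NeZero m] in
lemma WG_le : WG m ≤ autG PA := by
  rintro φ ⟨c, t, ht, h⟩ u w
  rw [h, h]
  simp only [PA, add_sub_cancel_right]
  rw [(ht (u.2 + c) : IsAut A1 _)]
  refine and_congr ?_ (and_congr Iff.rfl ?_)
  · constructor
    · intro h1; linear_combination h1
    · intro h1; linear_combination h1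
  · constructor
    · intro h1 s hs
      have := h1 (s + c) (by simpa using hs)
      simpa using this
    · intro h1 s hs
      rw [h1 (s - c) (fun h2 => hs (by rw [← h2]; simp))]

def prodW : (ZMod m → Equiv.Perm X) →* Equiv.Perm (PV m) where
  toFun t := ⟨fun u => (fun j => t j (u.1 j), u.2), fun u => (fun j => (t j)⁻¹ (u.1 j), u.2),
    fun u => by simp, fun u => by simp⟩
  map_one' := by ext u : 1; rfl
  map_mul' a b := by ext u : 1; rfl

omit [NeZero m] in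
lemma prodW_apply (t : ZMod m → Equiv.Perm X) (u : PV m) :
    prodW t u = (fun j => t j (u.1 j), u.2) := rfl

omit [NeZero m] in
lemma prodW_mem {t : ZMod m → Equiv.Perm X} (ht : ∀ j, t j ∈ autG A1) : prodW t ∈ WG m :=
  ⟨0, t, ht, fun u => by simp [prodW_apply]⟩

def shiftW (c : ZMod m) : Equiv.Perm (PV m) :=
  ⟨fun u => (fun j => u.1 (j - c), u.2 + c), fun u => (fun j => u.1 (j + c), u.2 - c),
    fun u => by simp, fun u => by simp⟩

omit [NeZero m] in
lemma WG_trans (x y : PV m) : ∃ γ ∈ WG m, γ x = y := by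
  choose t ht h using fun j : ZMod m =>
    trans1 le_rfl g_aut a_aut (x.1 (j - (y.2 - x.2))) (y.1 j)
  refine ⟨prodW t * shiftW (y.2 - x.2), (WG m).mul_mem (prodW_mem ht)
    ⟨y.2 - x.2, 1, fun _ => (autG A1).one_mem, fun u => rfl⟩, ?_⟩
  rw [Equiv.Perm.mul_apply, prodW_apply]
  refine Prod.ext (funext fun j => h j) ?_
  simp [shiftW]

omit [NeZero m] in
lemma single_mem (j : ZMod m) {u : Equiv.Perm X} (hu : u ∈ autG A1) (i : ZMod m) :
    (Pi.mulSingle j u : ZMod m → Equiv.Perm X) i ∈ autG A1 := by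
  by_cases h : i = j
  · subst h; simpa using hu
  · rw [Pi.mulSingle_eq_of_ne h]; exact (autG A1).one_mem

lemma swapsP {U : Subgroup (Equiv.Perm (PV m))}
    (hU : ∀ j, ∀ u ∈ autG A1, prodW (Pi.mulSingle j u) ∈ U) :
    ∀ k < 2 * m, ∃ α ∈ St U (bv m) k, α (bv m (k + 1)) ≠ bv m (k + 1) := by
  intro k hk
  have c2 : cnt (k : ZMod m) (2 * m) = 2 := by simpa [cnt] using cnt_mul (k : ZMod m) 2 0
  have h1 : cnt (k : ZMod m) (k + 1) = cnt (k : ZMod m) k + 1 := by rw [cnt_succ, if_pos rfl]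
  have h2 := cnt_mono (k : ZMod m) (show k + 1 ≤ 2 * m by omega)
  obtain ⟨u, hu, hm⟩ := swaps1 g_aut a_aut (cnt (k : ZMod m) k) (by omega)
  refine ⟨prodW (Pi.mulSingle (k : ZMod m) u), ⟨hU _ _ hu.1, fun i hi => ?_⟩, fun h => hm ?_⟩
  · rw [prodW_apply]
    refine Prod.ext (funext fun j => ?_) rfl
    by_cases h : j = (k : ZMod m)
    · subst h
      simpa [bv, vv] using hu.2 _ (cnt_mono _ hi)
    · simp [Pi.mulSingle_eq_of_ne h]
  · have := congrFun (congrArg Prod.fst h) (k : ZMod m)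
    simpa [prodW_apply, bv, vv, h1] using this

lemma swapsW : ∀ k < 2 * m, ∃ α ∈ St (WG m) (bv m) k, α (bv m (k + 1)) ≠ bv m (k + 1) :=
  swapsP fun j _ hu => prodW_mem (single_mem j hu)

lemma StP_one : ∀ φ ∈ St (autG PA) (bv m) (2 * m), φ = 1 :=
  St_eq_one out2_PA WG_le le_rfl WG_trans bv_arc (2 * m) swapsW rigidP reach2

lemma St_le_U {U : Subgroup (Equiv.Perm (PV m))} (hle : U ≤ autG PA)
    (hU : ∀ j, ∀ u ∈ autG A1, prodW (Pi.mulSingle j u) ∈ U) : St (autG PA) (bv m) 0 ≤ U := by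
  refine St_le_of_swaps out2_PA le_rfl bv_arc (2 * m) (fun k hk => ?_) StP_one
  obtain ⟨α, hα, hm⟩ := swapsP hU k hk
  exact ⟨α, ⟨hle hα.1, hα.2⟩, hα.1, hm⟩

lemma aut_le_WG : autG (PA (m := m)) ≤ WG m :=
  le_of_trans_St WG_le WG_trans (St_le_U WG_le fun j _ hu => prodW_mem (single_mem j hu))

lemma card_StP : Nat.card (St (autG PA) (bv m) 0) = 4 ^ m := by
  rw [card_St out2_PA le_rfl bv_arc (2 * m) (fun k hk => ?_) StP_one, pow_mul]
  · norm_num
  · obtain ⟨α, hα, hm⟩ := swapsW k hk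
    exact ⟨α, ⟨WG_le hα.1, hα.2⟩, hm⟩

lemma single_in {L : Subgroup (Equiv.Perm (PV m))} (hL : L ≤ autG PA)
    (htr : ∀ x y, ∃ γ ∈ L, γ x = y) (j : ZMod m) :
    ∀ u ∈ autG A1, prodW (Pi.mulSingle j u) ∈ L := by
  let P : Subgroup (Equiv.Perm X) :=
    { carrier := {u | ∃ t : ZMod m → Equiv.Perm X, (∀ i, t i ∈ autG A1) ∧ prodW t ∈ L ∧ t j = u ∧
        ∀ i, i ≠ j → t i 0 = 0}
      one_mem' := ⟨1, fun _ => (autG A1).one_mem, by rw [map_one]; exact L.one_mem, rfl,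
        fun _ _ => rfl⟩
      mul_mem' := by
        rintro _ _ ⟨t, h1, h2, rfl, h3⟩ ⟨t', h1', h2', rfl, h3'⟩
        refine ⟨t * t', fun i => (autG A1).mul_mem (h1 i) (h1' i),
          by rw [map_mul]; exact L.mul_mem h2 h2', rfl, fun i hi => ?_⟩
        rw [Pi.mul_apply, Equiv.Perm.mul_apply, h3' i hi, h3 i hi]
      inv_mem' := by
        rintro _ ⟨t, h1, h2, rfl, h3⟩
        refine ⟨t⁻¹, fun i => (autG A1).inv_mem (h1 i), by rw [map_inv]; exact L.inv_mem h2, rfl,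
          fun i hi => ?_⟩
        rw [Pi.inv_apply, Equiv.Perm.inv_eq_iff_eq, h3 i hi] }
  have hP : autG A1 ≤ P := by
    refine T_min (by rintro _ ⟨t, h1, _, rfl, _⟩; exact h1 j) (fun y => ?_)
    obtain ⟨γ, hγ, h⟩ := htr (fun _ => 0, 0) (Function.update (fun _ => 0) j y, 0)
    obtain ⟨c, t, ht, hf⟩ := aut_le_WG (hL hγ)
    rw [hf] at h
    have hc : c = 0 := by simpa using congrArg Prod.snd h
    subst hc
    have h1 : ∀ i, t i 0 = Function.update (fun _ => (0 : X)) j y i :=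
      fun i => congrFun (congrArg Prod.fst h) i
    have h2 : prodW t = γ := by
      ext u : 1
      rw [hf, prodW_apply]; simp
    refine ⟨t j, ⟨t, ht, h2 ▸ hγ, rfl, fun i hi => ?_⟩, by simpa using h1 j⟩
    rw [h1, Function.update_of_ne hi]
  let N : Subgroup (Equiv.Perm X) :=
    autG A1 ⊓ L.comap (prodW.comp (MonoidHom.mulSingle (fun _ : ZMod m => Equiv.Perm X) j))
  have hN : autG A1 ≤ N := by
    refine T_normal inf_le_left ⟨g_aut, ?_⟩ ?_
    · obtain ⟨t, h1, h2, h3, h4⟩ := hP g_aut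
      have h5 : t ^ 16 = Pi.mulSingle j gP := by
        funext i
        by_cases hi : i = j
        · subst hi
          rw [Pi.pow_apply, h3, Pi.mulSingle_eq_same, show 16 = 5 * 3 + 1 from rfl, pow_succ,
            pow_mul, g_pow5]
          simp
        · rw [Pi.pow_apply, Pi.mulSingle_eq_of_ne hi, show 16 = 4 * 4 from rfl, pow_mul,
            pow4_of_fix (h1 i) (h4 i hi), one_pow]
      have := L.pow_mem h2 16
      rw [← map_pow, h5] at this
      exact this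
    · intro u hu n hn
      refine ⟨(autG A1).mul_mem ((autG A1).mul_mem hu hn.1) ((autG A1).inv_mem hu), ?_⟩
      obtain ⟨t, h1, h2, h3, h4⟩ := hP hu
      have h5 : t * Pi.mulSingle j n * t⁻¹ = Pi.mulSingle j (u * n * u⁻¹) := by
        funext i
        by_cases hi : i = j
        · subst hi; simp [h3]
        · simp [Pi.mulSingle_eq_of_ne hi]
      have h6 : prodW (Pi.mulSingle j n) ∈ L := hn.2
      have := L.mul_mem (L.mul_mem h2 h6) (L.inv_mem h2)
      rw [← map_inv, ← map_mul, ← map_mul, h5] at this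
      exact this
  exact fun u hu => (hN hu).2

lemma card_St_trans {L : Subgroup (Equiv.Perm (PV m))} (hL : L ≤ autG PA)
    (htr : ∀ x y, ∃ γ ∈ L, γ x = y) : Nat.card (St L (bv m) 0) = 4 ^ m := by
  have h1 := St_le_U hL (single_in hL htr)
  have : St L (bv m) 0 = St (autG PA) (bv m) 0 :=
    le_antisymm (fun φ h => ⟨hL h.1, h.2⟩) (fun φ h => ⟨h1 h, h.2⟩)
  rw [this, card_StP]

theorem odd_main (m : ℕ) (hm : 1 ≤ m) :
    ∃ (V : Type) (D : Digraph V), Nat.card V = m * 165 ^ m ∧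
      (∀ v, {w | D.Adj v w}.ncard = 2) ∧ (∀ u v, Relation.ReflTransGen D.Adj u v) ∧
      IsLeast {k | HasPres D k} (4 ^ m) := by
  have : NeZero m := ⟨by omega⟩
  refine ⟨PV m, ⟨PA⟩, ?_, ncard_of_out2 out2_PA, fun u v => ?_, ?_, ?_⟩
  · simp [PV, ZMod.card, mul_comm]
  · obtain ⟨γ, hγ, rfl⟩ := WG_trans (bv m 0) u
    have key : ∀ y, Relation.ReflTransGen PA (bv m 0) y →
        Relation.ReflTransGen PA (γ (bv m 0)) (γ y) := by
      intro y hy
      induction hy with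
      | refl => exact Relation.ReflTransGen.refl
      | tail _ h2 ih => exact ih.tail ((WG_le hγ _ _).2 h2)
    simpa using key _ (reach0 (γ⁻¹ v))
  · have := hasPres_of (D := ⟨PA⟩) loop_PA WG_le WG_trans (bv m)
    rwa [card_St_trans WG_le WG_trans] at this
  · rintro k ⟨G, _, _, H, S, hp, rfl⟩
    obtain ⟨-, ρ, v0, h1, h2, h3⟩ := pres_action hp
    rw [← card_St_trans h1 h2]
    exact card_St_le ρ v0 h3 h2 _

end Pool.Agent.MP_89824e_co

end
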