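import Mathlib
import Pool.Agent.MP_89824e_co.Chain

section

namespace Pool.Agent.MP_89824e_co

open Polynomial

lemma poly_lin {W : Type} [AddCommGroup W] [Module (ZMod 2) W] [Finite W] [Nontrivial W]
    (σ : W →ₗ[ZMod 2] W) (r : ℕ) (hr : 0 < r) (hσ : ∀ w, (σ ^ r) w = w)
    (hirr : ∀ S : AddSubgroup W, (∀ x ∈ S, σ x ∈ S) → S = ⊥ ∨ S = ⊤) :
    ∃ f : (ZMod 2)[X], Irreducible f ∧ f ∣ X ^ r - 1 ∧ Nat.card W = 2 ^ f.natDegree := by
  haveI : Nontrivial (Module.AEval' σ) := (Module.AEval'.of σ).symm.toEquiv.nontrivial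
  have hs : IsSimpleModule (ZMod 2)[X] (Module.AEval' σ) := by
    rw [isSimpleModule_iff]
    refine { eq_bot_or_eq_top := fun N => ?_ }
    rcases hirr (N.toAddSubgroup.comap (Module.AEval'.of σ).toAddMonoidHom) (fun x hx => by
      have := N.smul_mem (X : (ZMod 2)[X]) hx
      erw [Module.AEval'.X_smul_of] at this
      exact this) with h | h
    · left
      rw [eq_bot_iff]
      intro x hx
      have : (Module.AEval'.of σ).symm x ∈
          N.toAddSubgroup.comap (Module.AEval'.of σ).toAddMonoidHom := by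
        simpa using hx
      rw [h] at this
      simpa using this
    · right
      rw [eq_top_iff]
      intro x _
      have : (Module.AEval'.of σ).symm x ∈
          N.toAddSubgroup.comap (Module.AEval'.of σ).toAddMonoidHom := by
        rw [h]; trivial
      simpa using this
  obtain ⟨I, hI, ⟨e⟩⟩ := isSimpleModule_iff_quot_maximal.1 hs
  obtain ⟨f, rfl⟩ : ∃ f, I = Ideal.span {f} := ⟨_, (Ideal.span_singleton_generator I).symm⟩
  have hd : f ∣ X ^ r - 1 := by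
    rw [← Ideal.mem_span_singleton, ← Ideal.Quotient.eq_zero_iff_mem]
    obtain ⟨x, hx⟩ := e.surjective 1
    obtain ⟨w, rfl⟩ := (Module.AEval'.of σ).surjective x
    have h1 : (X ^ r - 1 : (ZMod 2)[X]) • Module.AEval'.of σ w = 0 := by
      rw [sub_smul, Module.AEval'.X_pow_smul_of, one_smul]
      have : σ ^ r • w = w := hσ w
      rw [this, sub_self]
    have h2 := congrArg e h1
    rw [map_smul, hx, map_zero] at h2
    rw [← h2, ← Ideal.Quotient.algebraMap_eq, Algebra.algebraMap_eq_smul_one]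
  have hf0 : f ≠ 0 := by
    rintro rfl
    have := X_pow_sub_C_ne_zero hr (1 : ZMod 2)
    exact this (by simpa using hd)
  refine ⟨f, ((Ideal.span_singleton_prime hf0).1 hI.isPrime).irreducible, hd, ?_⟩
  have h3 : Nat.card W = Nat.card ((ZMod 2)[X] ⧸ Ideal.span {f}) :=
    Nat.card_congr ((Module.AEval'.of σ).toEquiv.trans e.toEquiv)
  haveI : Finite ((ZMod 2)[X] ⧸ Ideal.span {f}) :=
    Finite.of_equiv _ ((Module.AEval'.of σ).toEquiv.trans e.toEquiv)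
  rw [h3, Module.natCard_eq_pow_finrank (K := ZMod 2), finrank_quotient_span_eq_natDegree]
  simp

lemma poly_grp {Q : Type} [Group Q] [Finite Q] (M : Subgroup Q) (hN : M.Normal) (hM0 : M ≠ ⊥)
    (hc : ∀ x ∈ M, ∀ y ∈ M, x * y = y * x) (h2 : ∀ x ∈ M, x * x = 1) (g : Q) (r : ℕ)
    (hr : 0 < r) (hg : g ^ r ∈ M)
    (hirr : ∀ W : Subgroup Q, W ≤ M → (∀ x ∈ W, g⁻¹ * x * g ∈ W) → W = ⊥ ∨ W = M) :
    ∃ f : (ZMod 2)[X], Irreducible f ∧ f ∣ X ^ r - 1 ∧ Nat.card M = 2 ^ f.natDegree := by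
  letI : CommGroup M := { (inferInstance : Group M) with
    mul_comm := fun x y => Subtype.ext (hc _ x.2 _ y.2) }
  letI : Module (ZMod 2) (Additive M) := AddCommGroup.zmodModule (n := 2) (fun x => by
    rw [two_nsmul]
    exact Additive.toMul.injective (Subtype.ext (h2 _ x.toMul.2)))
  haveI : Nontrivial M := (Subgroup.nontrivial_iff_ne_bot M).2 hM0
  let τ : M →* M :=
    { toFun := fun x => ⟨g⁻¹ * x * g, hN.conj_mem' _ x.2 g⟩
      map_one' := Subtype.ext (by simp)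
      map_mul' := fun x y => Subtype.ext (by simp [mul_assoc]) }
  let σ : Additive M →ₗ[ZMod 2] Additive M :=
    (MonoidHom.toAdditive τ).toZModLinearMap 2
  have hσ1 : ∀ x : Additive M, ((σ x).toMul : Q) = g⁻¹ * x.toMul * g := fun x => rfl
  have hσ : ∀ (n : ℕ) (x : Additive M), (((σ ^ n) x).toMul : Q) = (g ^ n)⁻¹ * x.toMul * g ^ n := by
    intro n
    induction n with
    | zero => intro x; simp
    | succ n ih =>
      intro x
      rw [pow_succ', Module.End.mul_apply, hσ1, ih, pow_succ]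
      group
  obtain ⟨f, h1, h3, h4⟩ := poly_lin σ r hr (fun w => by
    apply Additive.toMul.injective
    apply Subtype.ext
    rw [hσ, mul_assoc, hc _ w.toMul.2 _ hg]
    group) (fun S hS => by
    rcases hirr ((AddSubgroup.toSubgroup' S).map M.subtype) (Subgroup.map_subtype_le _) (by
      rintro _ ⟨x, hx, rfl⟩
      exact ⟨_, hS (Additive.ofMul x) hx, rfl⟩) with h | h
    · left
      rw [eq_bot_iff]
      intro x hx
      have : (x.toMul : Q) ∈ (AddSubgroup.toSubgroup' S).map M.subtype := ⟨_, hx, rfl⟩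
      rw [h] at this
      exact Additive.toMul.injective (Subtype.ext this)
    · right
      rw [eq_top_iff]
      intro x _
      have : (x.toMul : Q) ∈ (AddSubgroup.toSubgroup' S).map M.subtype := by
        rw [h]; exact x.toMul.2
      obtain ⟨y, hy, h5⟩ := this
      have : y = x.toMul := Subtype.ext h5
      subst this
      exact hy)
  exact ⟨f, h1, h3, h4⟩

end Pool.Agent.MP_89824e_co

end

section

namespace Pool.Agent.MP_89824e_co

lemma exists_M {Q : Type} [Group Q] [Finite Q] (H : Subgroup Q) (g a a0 : Q)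
    (hnorm : ∀ M : Subgroup Q, M.Normal → M ≠ ⊥ → ∀ x, ∃ μ ∈ M, ∃ n : ℕ, x = μ * g ^ n)
    (hc : g⁻¹ * a0 * g ∉ H) (ha0 : a0 ∈ H)
    (hgen : ∀ U : Subgroup Q, (∀ t : ℕ, (g ^ t)⁻¹ * a * g ^ t ∈ U) → H ≤ U)
    (ha2 : a * a = 1) (hcomm : a * (g⁻¹ * a * g) = (g⁻¹ * a * g) * a)
    (hne : a * (g⁻¹ * a * g) ≠ 1) :
    (∃ M : Subgroup Q, M.Normal ∧ M ≠ ⊥ ∧ H ≤ M ∧ (∀ x ∈ M, ∀ y ∈ M, x * y = y * x) ∧
      (∀ x ∈ M, x * x = 1) ∧ (∀ x, ∃ μ ∈ M, ∃ n : ℕ, x = μ * g ^ n) ∧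
      ∀ W : Subgroup Q, W ≤ M → (∀ x ∈ W, g⁻¹ * x * g ∈ W) → W = ⊥ ∨ W = M) ∨
    (commutator Q ≠ ⊥ ∧ ⁅commutator Q, commutator Q⁆ = commutator Q ∧
      (∀ N : Subgroup Q, N.Normal → N ≠ ⊥ → commutator Q ≤ N) ∧ IsCyclic (Q ⧸ commutator Q)) := by
  have ha1 : a ≠ 1 := by
    rintro rfl
    exact hne (by simp)
  have htop : (⊤ : Subgroup Q) ≠ ⊥ := fun h => ha1 (by
    have : a ∈ (⊤ : Subgroup Q) := trivial
    rwa [h] at this)
  obtain ⟨M, ⟨hN, hM0⟩, hmin⟩ := (wellFounded_lt (α := Subgroup Q)).has_min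
    {M | M.Normal ∧ M ≠ ⊥} ⟨⊤, inferInstance, htop⟩
  have hmin' : ∀ W : Subgroup Q, W.Normal → W ≤ M → W = ⊥ ∨ W = M := by
    intro W hW hle
    by_cases h : W = ⊥
    · exact Or.inl h
    · right
      by_contra h2
      exact hmin W ⟨hW, h⟩ (lt_of_le_of_ne hle h2)
  have hq0 : ∀ (N : Subgroup Q) [hN : N.Normal], N ≠ ⊥ →
      ∀ x y : Q, ((x * y : Q) : Q ⧸ N) = ((y * x : Q) : Q ⧸ N) := by
    intro N hN hN0 x y
    obtain ⟨μ, hμ, n, rfl⟩ := hnorm N hN hN0 x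
    obtain ⟨ν, hν, m, rfl⟩ := hnorm N hN hN0 y
    have e1 : ((μ : Q) : Q ⧸ N) = 1 := (QuotientGroup.eq_one_iff _).2 hμ
    have e2 : ((ν : Q) : Q ⧸ N) = 1 := (QuotientGroup.eq_one_iff _).2 hν
    simp only [QuotientGroup.mk_mul, QuotientGroup.mk_pow, e1, e2, one_mul]
    exact (Commute.pow_pow_self _ _ _).eq
  rcases (hmin' ⁅M, M⁆ inferInstance (Subgroup.commutator_le_left M M)).symm with hMM | hMM
  · right
    have h1 : ∀ N : Subgroup Q, N.Normal → N ≠ ⊥ → commutator Q ≤ N := by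
      intro N hN hN0
      rw [commutator_def, Subgroup.commutator_le]
      intro x _ y _
      rw [← QuotientGroup.eq_one_iff, commutatorElement_def, mul_assoc, ← mul_inv_rev,
        QuotientGroup.mk_mul, hq0 N hN0 x y, ← QuotientGroup.mk_mul, mul_inv_cancel,
        QuotientGroup.mk_one]
    have h2 : commutator Q = M :=
      le_antisymm (h1 M hN hM0) (hMM ▸ Subgroup.commutator_mono le_top le_top)
    refine ⟨h2 ▸ hM0, by rw [h2, hMM], h1, ⟨((g : Q) : Q ⧸ commutator Q), fun q => ?_⟩⟩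
    obtain ⟨x, rfl⟩ := QuotientGroup.mk_surjective q
    obtain ⟨μ, hμ, n, rfl⟩ := hnorm (commutator Q) inferInstance (h2 ▸ hM0) x
    rw [QuotientGroup.mk_mul, (QuotientGroup.eq_one_iff _).2 hμ, one_mul]
    exact ⟨n, by simp⟩
  left
  have hab : ∀ x ∈ M, ∀ y ∈ M, x * y = y * x := by
    intro x hx y hy
    have := Subgroup.commutator_mem_commutator hx hy
    rw [hMM, Subgroup.mem_bot, commutatorElement_eq_one_iff_mul_comm] at this
    exact this
  have hdec := hnorm M hN hM0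
  have hq := hq0 M hM0
  have hconj : ∀ x : Q, a⁻¹ * (x⁻¹ * a * x) ∈ M := by
    intro x
    rw [← QuotientGroup.eq, mul_assoc, hq]
    simp
  have hainv : a⁻¹ = a := by rw [inv_eq_iff_mul_eq_one, ha2]
  have hcen : ∀ μ ∈ M, μ * a = a * μ := by
    let C : Subgroup Q := M ⊓ Subgroup.centralizer {a}
    have hC : ∀ μ, μ ∈ C ↔ μ ∈ M ∧ a * μ = μ * a := by
      intro μ
      simp [C, Subgroup.mem_centralizer_iff]
    have hCN : C.Normal := ⟨fun μ hμ x => by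
      rw [hC] at hμ ⊢
      refine ⟨hN.conj_mem _ hμ.1 x, ?_⟩
      have h1 := hab _ (hconj x) _ hμ.1
      have h2 : x⁻¹ * a * x * μ = μ * (x⁻¹ * a * x) := by
        calc x⁻¹ * a * x * μ = a * (a⁻¹ * (x⁻¹ * a * x) * μ) := by group
          _ = a * μ * (a⁻¹ * (x⁻¹ * a * x)) := by rw [h1]; group
          _ = _ := by rw [hμ.2]; group
      calc a * (x * μ * x⁻¹) = x * (x⁻¹ * a * x * μ) * x⁻¹ := by group
        _ = _ := by rw [h2]; group⟩
    have hmem : a * (g⁻¹ * a * g) ∈ C := by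
      rw [hC]
      refine ⟨by simpa [hainv] using hconj g, ?_⟩
      rw [mul_assoc a (g⁻¹ * a * g) a, ← hcomm]
    rcases hmin' C hCN inf_le_left with h | h
    · rw [h] at hmem
      exact absurd hmem hne
    · intro μ hμ
      rw [← h, hC] at hμ
      exact hμ.2.symm
  have haM : a ∈ M := by
    obtain ⟨μ, hμ, n, hn⟩ := hdec a
    by_cases h1 : g ^ n = 1
    · rw [hn, h1, mul_one]; exact hμ
    exfalso
    have hz : ∀ x, x * g ^ n = g ^ n * x := by
      intro x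
      obtain ⟨ν, hν, m, rfl⟩ := hdec x
      have e : g ^ n = μ⁻¹ * a := by rw [hn]; group
      have e2 : ν * g ^ n = g ^ n * ν := by
        rw [e, ← mul_assoc, hab _ hν _ (M.inv_mem hμ), mul_assoc, hcen _ hν, mul_assoc]
      rw [mul_assoc, (Commute.pow_pow_self g m n).eq, ← mul_assoc, e2, mul_assoc]
    have hZN : (Subgroup.zpowers (g ^ n)).Normal := ⟨fun y hy x => by
      obtain ⟨k, rfl⟩ := hy
      have : x * (g ^ n) ^ k = (g ^ n) ^ k * x := (Commute.zpow_right (hz x) k).eq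
      simp only [this, mul_inv_cancel_right]
      exact ⟨k, rfl⟩⟩
    obtain ⟨_, ⟨k, rfl⟩, m, h2⟩ := hnorm _ hZN (by simpa using h1) a0
    apply hc
    have : g⁻¹ * a0 * g = a0 := by
      rw [h2]; group
    rw [this]; exact ha0
  have hHM : H ≤ M := hgen M (fun t => hN.conj_mem' _ haM _)
  have h2 : ∀ x ∈ M, x * x = 1 := by
    let E : Subgroup Q :=
      { carrier := {x | x ∈ M ∧ x * x = 1}
        one_mem' := ⟨M.one_mem, by simp⟩
        mul_mem' := fun {x y} hx hy => ⟨M.mul_mem hx.1 hy.1, by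
          calc x * y * (x * y) = x * (y * x) * y := by group
            _ = (x * x) * (y * y) := by rw [hab _ hy.1 _ hx.1]; group
            _ = 1 := by rw [hx.2, hy.2, one_mul]⟩
        inv_mem' := fun {x} hx => ⟨M.inv_mem hx.1, by rw [← mul_inv_rev, hx.2, inv_one]⟩ }
    have hEN : E.Normal := ⟨fun y hy x => ⟨hN.conj_mem _ hy.1 x, by
      calc x * y * x⁻¹ * (x * y * x⁻¹) = x * (y * y) * x⁻¹ := by group
        _ = 1 := by rw [hy.2]; group⟩⟩
    rcases hmin' E hEN (fun x hx => hx.1) with h | h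
    · have : a ∈ E := ⟨haM, ha2⟩
      rw [h] at this
      exact absurd this ha1
    · intro x hx
      rw [← h] at hx
      exact hx.2
  refine ⟨M, hN, hM0, hHM, hab, h2, hdec, fun W hW hinv => hmin' W ⟨fun y hy x => ?_⟩ hW⟩
  have hp : ∀ n : ℕ, (g ^ n)⁻¹ * y * g ^ n ∈ W := by
    intro n
    induction n with
    | zero => simpa using hy
    | succ n ih =>
      have e : (g ^ (n + 1))⁻¹ * y * g ^ (n + 1) = g⁻¹ * ((g ^ n)⁻¹ * y * g ^ n) * g := by
        rw [pow_succ]; group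
      rw [e]; exact hinv _ ih
  obtain ⟨μ, hμ, n, hn⟩ := hdec x⁻¹
  have e : x = (g ^ n)⁻¹ * μ⁻¹ := by rw [← mul_inv_rev, ← hn, inv_inv]
  have e2 : x * y * x⁻¹ = (g ^ n)⁻¹ * y * g ^ n := by
    rw [hn, e]
    calc (g ^ n)⁻¹ * μ⁻¹ * y * (μ * g ^ n) = (g ^ n)⁻¹ * μ⁻¹ * (y * μ) * g ^ n := by group
      _ = _ := by rw [hab _ (hW hy) _ hμ]; group
  rw [e2]; exact hp n

end Pool.Agent.MP_89824e_co

end

section

namespace Pool.Agent.MP_89824e_co

variable {Q : Type} [Group Q]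

/-- the subgroup generated by `U ≤ M` and `c` in the elementary abelian group `M` -/
def extS (M : Subgroup Q) (c : Q) (hc : c ∈ M) (hab : ∀ x ∈ M, ∀ y ∈ M, x * y = y * x)
    (h2 : ∀ x ∈ M, x * x = 1) (U : Subgroup Q) : Subgroup Q where
  carrier := {x | x ∈ M ∧ (x ∈ U ∨ x * c ∈ U)}
  one_mem' := ⟨M.one_mem, Or.inl U.one_mem⟩
  mul_mem' := fun {x y} hx hy => ⟨M.mul_mem hx.1 hy.1, by
    have e : x * c * y = x * y * c := by rw [mul_assoc, hab _ hc _ hy.1, mul_assoc]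
    rcases hx.2 with h1 | h1 <;> rcases hy.2 with h3 | h3
    · exact Or.inl (U.mul_mem h1 h3)
    · right; rw [mul_assoc]; exact U.mul_mem h1 h3
    · right; rw [← e]; exact U.mul_mem h1 h3
    · left
      have := U.mul_mem h1 h3
      rwa [← mul_assoc, e, mul_assoc, h2 _ hc, mul_one] at this⟩
  inv_mem' := fun {x} hx => by
    have : x⁻¹ = x := by rw [inv_eq_iff_mul_eq_one, h2 _ hx.1]
    rw [this]; exact hx

lemma exists_chain [Finite Q] (H M : Subgroup Q) (g a0 : Q) (hN : M.Normal) (hHM : H ≤ M)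
    (hab : ∀ x ∈ M, ∀ y ∈ M, x * y = y * x) (h2 : ∀ x ∈ M, x * x = 1)
    (hirr : ∀ W : Subgroup Q, W ≤ M → (∀ x ∈ W, g⁻¹ * x * g ∈ W) → W = ⊥ ∨ W = M)
    (hc : g⁻¹ * a0 * g ∉ H) (ha0 : a0 ∈ H)
    (hF : ∀ h ∈ H, g⁻¹ * h * g ∈ H ∨ g⁻¹ * (h * a0) * g ∈ H) :
    ∃ (s : ℕ) (W : Subgroup Q), 1 ≤ s ∧ Nat.card M = 2 ^ s * Nat.card H ∧
      (∀ x ∈ M, ∀ y ∈ M, (x * y ∈ W ↔ (x ∈ W ↔ y ∈ W))) ∧
      ∀ μ ∈ M, (∀ j < s, g ^ j * μ * (g ^ j)⁻¹ ∈ W) ↔ μ ∈ H := by
  classical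
  set c := g⁻¹ * a0 * g with hcdef
  have hcM : c ∈ M := hN.conj_mem' _ (hHM ha0) g
  obtain ⟨U, hU0, hUd⟩ : ∃ U : ℕ → Subgroup Q, U 0 = H ∧ ∀ j, U (j + 1) =
      (extS M c hcM hab h2 (U j)).comap (MulAut.conj g⁻¹).toMonoidHom :=
    ⟨fun j => Nat.rec H
      (fun _ W => (extS M c hcM hab h2 W).comap (MulAut.conj g⁻¹).toMonoidHom) j, rfl, fun _ => rfl⟩
  have hUs : ∀ j x, x ∈ U (j + 1) ↔
      g⁻¹ * x * g ∈ M ∧ (g⁻¹ * x * g ∈ U j ∨ g⁻¹ * x * g * c ∈ U j) := by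
    intro j x
    have e : (MulAut.conj g⁻¹).toMonoidHom x = g⁻¹ * x * g := by simp
    rw [hUd, Subgroup.mem_comap, e]; rfl
  have hUM : ∀ j, U j ≤ M := by
    intro j
    cases j with
    | zero => exact hU0 ▸ hHM
    | succ j =>
      intro x hx
      have := hN.conj_mem _ ((hUs j x).1 hx).1 g
      simpa [mul_assoc] using this
  have hmono : Monotone U := by
    refine monotone_nat_of_le_succ (fun j => ?_)
    induction j with
    | zero =>
      intro x hx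
      rw [hU0] at hx
      refine (hUs 0 x).2 ⟨hN.conj_mem' _ (hHM hx) g, ?_⟩
      have e : g⁻¹ * x * g * c = g⁻¹ * (x * a0) * g := by rw [hcdef]; group
      rw [e, hU0]; exact hF x hx
    | succ j ih =>
      intro x hx
      rw [hUs] at hx ⊢
      exact ⟨hx.1, hx.2.imp (fun h => ih h) (fun h => ih h)⟩
  have hconj : ∀ j, ∀ h ∈ H, g ^ j * h * (g ^ j)⁻¹ ∈ U j := by
    intro j h hh
    induction j with
    | zero => simpa [hU0] using hh
    | succ j ih =>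
      have e : g⁻¹ * (g ^ (j + 1) * h * (g ^ (j + 1))⁻¹) * g = g ^ j * h * (g ^ j)⁻¹ := by
        rw [pow_succ']; group
      rw [hUs, e]
      exact ⟨hUM j ih, Or.inl ih⟩
  have hex : ∃ j, c ∈ U j := by
    refine ⟨orderOf g - 1, ?_⟩
    have e : g ^ (orderOf g - 1) = g⁻¹ := by
      rw [eq_inv_iff_mul_eq_one, ← pow_succ, Nat.sub_add_cancel (orderOf_pos g), pow_orderOf_eq_one]
    have := hconj (orderOf g - 1) a0 ha0
    rwa [e, inv_inv] at this
  have hs1 : Nat.find hex ≠ 0 := by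
    intro h
    have := Nat.find_spec hex
    rw [h, hU0] at this
    exact hc this
  obtain ⟨t, ht⟩ : ∃ t, Nat.find hex = t + 1 := Nat.exists_eq_succ_of_ne_zero hs1
  have hct : c ∈ U (t + 1) := by
    have := Nat.find_spec hex
    rwa [ht] at this
  have hnc : ∀ j ≤ t, c ∉ U j := fun j hj => Nat.find_min hex (by omega)
  have hc1 : c ≠ 1 := fun h => hc (h ▸ H.one_mem)
  have hUt : U (t + 1) = M := by
    refine (hirr _ (hUM _) (fun x hx => ?_)).resolve_left (fun h => hc1 (by rwa [h] at hct))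
    rcases ((hUs _ x).1 (hmono (Nat.le_succ (t + 1)) hx)).2 with h | h
    · exact h
    · simpa using (U (t + 1)).mul_mem h ((U (t + 1)).inv_mem hct)
  have hxor : ∀ j ≤ t, ∀ x, x ∈ U j → x * c ∉ U j := by
    intro j hj x hx hxc
    exact hnc j hj (by simpa using (U j).mul_mem ((U j).inv_mem hx) hxc)
  have hcard : ∀ j ≤ t + 1, Nat.card (U j) = 2 ^ j * Nat.card H := by
    intro j
    induction j with
    | zero => intro _; simp [hU0]
    | succ j ih =>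
      intro hj
      have e1 : Nat.card (extS M c hcM hab h2 (U j)) = 2 * Nat.card (U j) := by
        refine card_of_xor (a := c) (fun x hx => ⟨hUM j hx, Or.inl hx⟩)
          ⟨hcM, Or.inr (by rw [h2 _ hcM]; exact (U j).one_mem)⟩ (fun b hb => ?_)
        rcases hb.2 with h | h
        · exact Or.inr ⟨h, hxor j (by omega) b h⟩
        · exact Or.inl ⟨h, fun h3 => hxor j (by omega) b h3 h⟩
      have e2 : Nat.card (U (j + 1)) = Nat.card (extS M c hcM hab h2 (U j)) := by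
        rw [hUd]
        exact Nat.card_congr ((MulAut.conj g⁻¹).toEquiv.subtypeEquiv (fun _ => Iff.rfl))
      rw [e2, e1, ih (by omega)]; ring
  have hcov : ∀ x ∈ M, x ∈ U t ∨ x * c ∈ U t := by
    intro x hx
    have h1 : g * x * g⁻¹ ∈ U (t + 1) := hUt ▸ hN.conj_mem _ hx g
    have e : g⁻¹ * (g * x * g⁻¹) * g = x := by group
    rw [hUs, e] at h1
    exact h1.2
  refine ⟨t + 1, U t, by omega, by rw [← hUt]; exact hcard _ le_rfl, fun x hx y hy => ?_,
    fun μ hμ => ⟨fun h => ?_, fun h j hj => hmono (by omega) (hconj j μ h)⟩⟩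
  · by_cases h1 : x ∈ U t
    · simp [h1, (U t).mul_mem_cancel_left h1]
    by_cases h3 : y ∈ U t
    · simp [h3, (U t).mul_mem_cancel_right h3]
    simp only [h1, h3, iff_true]
    have := (U t).mul_mem ((hcov x hx).resolve_left h1) ((hcov y hy).resolve_left h3)
    have e : x * c * (y * c) = x * y := by
      rw [hab _ hy _ hcM, mul_assoc, ← mul_assoc c, h2 _ hcM, one_mul]
    rwa [e] at this
  · have key : ∀ i ≤ t, ∀ μ ∈ M, (∀ j ≤ i, g ^ j * μ * (g ^ j)⁻¹ ∈ U t) → μ ∈ U (t - i) := by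
      intro i
      induction i with
      | zero => intro _ μ _ h; simpa using h 0 le_rfl
      | succ i ih =>
        intro hi μ hμ h
        have h1 := ih (by omega) (g * μ * g⁻¹) (hN.conj_mem _ hμ g) (fun j hj => by
          have e : g ^ j * (g * μ * g⁻¹) * (g ^ j)⁻¹ = g ^ (j + 1) * μ * (g ^ (j + 1))⁻¹ := by
            rw [pow_succ]; group
          rw [e]; exact h _ (by omega))
        have e : g⁻¹ * (g * μ * g⁻¹) * g = μ := by group
        have e2 : t - i = t - (i + 1) + 1 := by omega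
        rw [e2, hUs, e] at h1
        refine h1.2.resolve_right (fun h3 => ?_)
        exact hxor t le_rfl μ (by simpa using h 0 (by omega)) (hmono (by omega) h3)
    simpa [hU0] using key t le_rfl μ hμ (fun j hj => h j (by omega))

lemma exists_P [Finite Q] (H M W : Subgroup Q) (g : Q) (s : ℕ) (hN : M.Normal) (hHM : H ≤ M)
    (hdec : ∀ x, ∃ μ ∈ M, ∃ n : ℕ, x = μ * g ^ n) (hcard : Nat.card M = 2 ^ s * Nat.card H)
    (hW : ∀ x ∈ M, ∀ y ∈ M, (x * y ∈ W ↔ (x ∈ W ↔ y ∈ W)))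
    (hH : ∀ μ ∈ M, (∀ j < s, g ^ j * μ * (g ^ j)⁻¹ ∈ W) ↔ μ ∈ H) :
    ∃ (r : ℕ) (P : Q → ZMod r × (Fin s → ZMod 2)), 0 < r ∧ g ^ r ∈ M ∧ Function.Surjective P ∧
      (∀ x y, P x = P y ↔ x⁻¹ * y ∈ H) ∧ ∀ x, (PX r s).Adj (P x) (P (x * g)) := by
  classical
  have hg : ∀ q : Q ⧸ M, q ∈ Subgroup.zpowers ((g : Q) : Q ⧸ M) := by
    intro q
    obtain ⟨x, rfl⟩ := QuotientGroup.mk_surjective q
    obtain ⟨μ, hμ, n, rfl⟩ := hdec x
    rw [QuotientGroup.mk_mul, (QuotientGroup.eq_one_iff _).2 hμ, one_mul]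
    exact ⟨n, by simp⟩
  set r := Nat.card (Q ⧸ M) with hr
  have hr0 : 0 < r := Nat.card_pos
  have : NeZero r := ⟨hr0.ne'⟩
  let φ := zmodMulEquivOfGenerator hg hr.symm
  let l : Q → ZMod r := fun x => (φ.symm (x : Q ⧸ M)).toAdd
  have hl : ∀ x y, l x = l y ↔ x⁻¹ * y ∈ M := by
    intro x y
    rw [← QuotientGroup.eq]
    simp [l]
  have hlg : ∀ x, l (x * g) = l x + 1 := by
    intro x
    simp [l, φ]
  have hlp : ∀ n : ℕ, l (g ^ n) = n := by
    intro n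
    induction n with
    | zero => simp [l]
    | succ n ih => rw [pow_succ, hlg, ih]; simp
  have hm : ∀ x, (g ^ (l x).val)⁻¹ * x ∈ M := by
    intro x
    rw [← hl, hlp]; simp
  let C : Q → ZMod 2 := fun x => if (g ^ (l x).val)⁻¹ * x ∈ W then 0 else 1
  have hC : ∀ x, ∀ μ ∈ M, C x = C (x * μ) ↔ μ ∈ W := by
    intro x μ hμ
    have e : l (x * μ) = l x := ((hl _ _).2 (by simpa using hμ)).symm
    simp only [C, e]
    rw [← mul_assoc, hW _ (hm x) _ hμ]
    by_cases h1 : (g ^ (l x).val)⁻¹ * x ∈ W <;> by_cases h3 : μ ∈ W <;> simp [h1, h3]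
  let P : Q → ZMod r × (Fin s → ZMod 2) := fun x => (l x, fun j => C (x * (g ^ (j : ℕ))⁻¹))
  have hP : ∀ x y, P x = P y ↔ x⁻¹ * y ∈ H := by
    intro x y
    have key : x⁻¹ * y ∈ M → ((∀ j : Fin s, C (x * (g ^ (j : ℕ))⁻¹) = C (y * (g ^ (j : ℕ))⁻¹)) ↔
        x⁻¹ * y ∈ H) := by
      intro h
      rw [← hH _ h]
      have e : ∀ j : ℕ, C (x * (g ^ j)⁻¹) = C (y * (g ^ j)⁻¹) ↔
          g ^ j * (x⁻¹ * y) * (g ^ j)⁻¹ ∈ W := by
        intro j
        rw [← hC (x * (g ^ j)⁻¹) _ (hN.conj_mem _ h _)]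
        have : x * (g ^ j)⁻¹ * (g ^ j * (x⁻¹ * y) * (g ^ j)⁻¹) = y * (g ^ j)⁻¹ := by group
        rw [this]
      simp only [e]
      exact ⟨fun h j hj => h ⟨j, hj⟩, fun h j => h j j.2⟩
    simp only [P, Prod.mk.injEq, funext_iff, hl]
    exact ⟨fun h => (key h.1).1 h.2, fun h => ⟨hHM h, (key (hHM h)).2 h⟩⟩
  refine ⟨r, P, hr0, ?_, ?_, hP, fun x => ⟨hlg x, fun i j hij => ?_⟩⟩
  · have := (hl 1 (g ^ r)).1 (by rw [hlp, ← pow_zero g, hlp]; simp)
    simpa using this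
  · let P' : Q ⧸ H → ZMod r × (Fin s → ZMod 2) := Quotient.lift P (fun a b hab =>
      (hP a b).2 (QuotientGroup.leftRel_apply.1 hab))
    have hinj : Function.Injective P' := by
      intro a b hab
      obtain ⟨a, rfl⟩ := QuotientGroup.mk_surjective a
      obtain ⟨b, rfl⟩ := QuotientGroup.mk_surjective b
      exact QuotientGroup.eq.2 ((hP a b).1 hab)
    have hcd : Nat.card (Q ⧸ H) = Nat.card (ZMod r × (Fin s → ZMod 2)) := by
      have e1 := Subgroup.card_eq_card_quotient_mul_card_subgroup H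
      have e2 := Subgroup.card_eq_card_quotient_mul_card_subgroup M
      have e3 : 0 < Nat.card H := Nat.card_pos
      rw [e1, hcard, ← mul_assoc] at e2
      rw [Nat.eq_of_mul_eq_mul_right e3 e2]
      simp [hr]
    have hs := ((Nat.bijective_iff_injective_and_card P').2 ⟨hinj, hcd⟩).2
    intro z
    obtain ⟨q, hq⟩ := hs z
    obtain ⟨a, rfl⟩ := QuotientGroup.mk_surjective q
    exact ⟨a, hq⟩
  · simp only [P, hij]
    congr 1
    rw [pow_succ']; group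

lemma px_two {r s : ℕ} (hs : 1 ≤ s) {u y z w : ZMod r × (Fin s → ZMod 2)}
    (hy : (PX r s).Adj u y) (hz : (PX r s).Adj u z) (hw : (PX r s).Adj u w) (hyz : y ≠ z) :
    w = y ∨ w = z := by
  have key : ∀ y z : ZMod r × (Fin s → ZMod 2), (PX r s).Adj u y → (PX r s).Adj u z →
      y.2 ⟨0, hs⟩ = z.2 ⟨0, hs⟩ → y = z := by
    intro y z hy hz h
    refine Prod.ext (hy.1.trans hz.1.symm) (funext fun j => ?_)
    obtain ⟨j, hj⟩ := j
    cases j with
    | zero => exact h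
    | succ j => exact (hy.2 ⟨j, by omega⟩ _ rfl).trans (hz.2 ⟨j, by omega⟩ _ rfl).symm
  have h1 : y.2 ⟨0, hs⟩ ≠ z.2 ⟨0, hs⟩ := fun h => hyz (key _ _ hy hz h)
  have h3 : ∀ a b c : ZMod 2, a ≠ b → c = a ∨ c = b := by decide
  exact (h3 _ _ (w.2 ⟨0, hs⟩) h1).imp (key _ _ hw hy) (key _ _ hw hz)

end Pool.Agent.MP_89824e_co

end

section

namespace Pool.Agent.MP_89824e_co

open Polynomial
open scoped Pointwise

lemma core {Q : Type} [Group Q] [Finite Q] (H : Subgroup Q) (g a a0 : Q)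
    (hnorm : ∀ M : Subgroup Q, M.Normal → M ≠ ⊥ → ∀ x, ∃ μ ∈ M, ∃ n : ℕ, x = μ * g ^ n)
    (hc : g⁻¹ * a0 * g ∉ H) (ha0 : a0 ∈ H)
    (hF : ∀ h ∈ H, g⁻¹ * h * g ∈ H ∨ g⁻¹ * (h * a0) * g ∈ H)
    (hgen : ∀ U : Subgroup Q, (∀ t : ℕ, (g ^ t)⁻¹ * a * g ^ t ∈ U) → H ≤ U)
    (ha2 : a * a = 1) (hcomm : a * (g⁻¹ * a * g) = (g⁻¹ * a * g) * a)
    (hne : a * (g⁻¹ * a * g) ≠ 1) :
    (∃ (r s : ℕ) (f : (ZMod 2)[X]) (P : Q → ZMod r × (Fin s → ZMod 2)), 0 < r ∧ 1 ≤ s ∧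
      Irreducible f ∧ f ∣ X ^ r - 1 ∧ 2 ^ f.natDegree = 2 ^ s * Nat.card H ∧
      Function.Surjective P ∧ (∀ x y, P x = P y ↔ x⁻¹ * y ∈ H) ∧
      ∀ x, (PX r s).Adj (P x) (P (x * g))) ∨
    (commutator Q ≠ ⊥ ∧ ⁅commutator Q, commutator Q⁆ = commutator Q ∧
      (∀ N : Subgroup Q, N.Normal → N ≠ ⊥ → commutator Q ≤ N) ∧ IsCyclic (Q ⧸ commutator Q)) := by
  refine (exists_M H g a a0 hnorm hc ha0 hgen ha2 hcomm hne).imp_left ?_
  rintro ⟨M, hN, hM0, hHM, hab, h2, hdec, hirr⟩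
  obtain ⟨s, W, hs, hcard, hW, hH⟩ := exists_chain H M g a0 hN hHM hab h2 hirr hc ha0 hF
  obtain ⟨r, P, hr, hg, h3, h4, h5⟩ := exists_P H M W g s hN hHM hdec hcard hW hH
  obtain ⟨f, h6, h7, h8⟩ := poly_grp M hN hM0 hab h2 g r hr hg hirr
  exact ⟨r, s, f, P, hr, hs, h6, h7, h8 ▸ hcard, h3, h4, h5⟩

lemma coset_dig {Q : Type} [Group Q] (H : Subgroup Q) (g a0 : Q)
    (hc : g⁻¹ * a0 * g ∉ H) (ha0 : a0 ∈ H)
    (hF : ∀ h ∈ H, g⁻¹ * h * g ∈ H ∨ g⁻¹ * (h * a0) * g ∈ H) :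
    ∃ E : Digraph (Q ⧸ H), IsPres E Q H {g} ∧ (∀ x : Q, E.Adj x ((x * g : Q) : Q ⧸ H)) ∧
      ∀ (x : Q) z, E.Adj x z → z = ((x * g : Q) : Q ⧸ H) ∨ z = ((x * a0 * g : Q) : Q ⧸ H) := by
  refine ⟨⟨fun u w => ∃ x : Q, (x : Q ⧸ H) = u ∧ ((x * g : Q) : Q ⧸ H) = w⟩,
    ⟨?_, Equiv.refl _, fun x y => ?_⟩, fun x => ⟨x, rfl, rfl⟩, ?_⟩
  · rw [Set.disjoint_singleton_left]
    intro h
    exact hc (H.mul_mem (H.mul_mem (H.inv_mem h) ha0) h)
  · constructor
    · rintro ⟨z, h1, h2⟩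
      refine ⟨_, ⟨x⁻¹ * z, QuotientGroup.eq.1 h1.symm, g, rfl, rfl⟩, (z * g)⁻¹ * y,
        QuotientGroup.eq.1 h2, ?_⟩
      group
    · rintro ⟨_, ⟨h, hh, u, rfl, rfl⟩, k, hk, e⟩
      refine ⟨x * h, QuotientGroup.eq.2 (by simpa using hh), QuotientGroup.eq.2 ?_⟩
      have : (x * h * u)⁻¹ * y = k := by
        rw [mul_assoc, mul_inv_rev, mul_assoc, ← e]; group
      rwa [this]
  · rintro x _ ⟨y, h1, rfl⟩
    rcases hF _ (QuotientGroup.eq.1 h1) with h | h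
    · left
      refine QuotientGroup.eq.2 ?_
      have : (y * g)⁻¹ * (x * g) = g⁻¹ * (y⁻¹ * x) * g := by group
      rwa [this]
    · right
      refine QuotientGroup.eq.2 ?_
      have : (y * g)⁻¹ * (x * a0 * g) = g⁻¹ * (y⁻¹ * x * a0) * g := by group
      rwa [this]

lemma cover {V : Type} (D : Digraph V) (hO : Out2 D.Adj)
    (hconn : ∀ u v, Relation.ReflTransGen D.Adj u v)
    {Γ : Type} [Group Γ] [Finite Γ] (ρ : Γ →* Equiv.Perm V)
    (hinj : Function.Injective ρ) (hA : ∀ γ, IsAut D.Adj (ρ γ)) (v0 : V)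
    (htr : ∀ x, ∃ γ, ρ γ v0 = x)
    (hmin : ∀ U : Subgroup Γ, (∀ z, D.Adj v0 z → ∃ u ∈ U, ρ u v0 = z) → U = ⊤)
    (H : Subgroup Γ) (hH : ∀ γ, γ ∈ H ↔ ρ γ v0 = v0) (g a a0 : Γ)
    (hg : D.Adj v0 (ρ g v0)) (ha0 : a0 ∈ H) (hm : ρ a0 (ρ g v0) ≠ ρ g v0)
    (hgen : ∀ U : Subgroup Γ, (∀ t : ℕ, (g ^ t)⁻¹ * a * g ^ t ∈ U) → H ≤ U)
    (ha2 : a * a = 1) (hcomm : a * (g⁻¹ * a * g) = (g⁻¹ * a * g) * a)
    (hne : a * (g⁻¹ * a * g) ≠ 1) (hmem : a * (g⁻¹ * a * g) ∈ H) :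
    (∃ (r s : ℕ) (f : (ZMod 2)[X]), 0 < r ∧ 1 ≤ s ∧
      Irreducible f ∧ f ∣ X ^ r - 1 ∧ 2 ^ f.natDegree = 2 ^ s * Nat.card H ∧
      RegCover D (PX r s)) ∨
    ∃ (Q : Type) (_ : Group Q) (_ : Finite Q) (H' : Subgroup Q) (S' : Set Q) (W : Type)
      (E : Digraph W), IsPres E Q H' S' ∧ Nat.card H' = Nat.card H ∧ RegCover D E ∧
      (∃ π : Γ →* Q, Function.Surjective π) ∧
      commutator Q ≠ ⊥ ∧ ⁅commutator Q, commutator Q⁆ = commutator Q ∧
      (∀ N : Subgroup Q, N.Normal → N ≠ ⊥ → commutator Q ≤ N) ∧ IsCyclic (Q ⧸ commutator Q) := by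
  have hg2 : D.Adj v0 (ρ a0 (ρ g v0)) := (hA a0).adj ((hH _).1 ha0) hg
  obtain ⟨N, ⟨hN, hN2⟩, hmax⟩ := (wellFounded_gt (α := Subgroup Γ)).has_min
    {N | N.Normal ∧ ∀ μ ∈ N, ρ μ (ρ g v0) ≠ ρ a0 (ρ g v0)} ⟨⊥, inferInstance, by
      intro μ hμ
      rw [Subgroup.mem_bot.1 hμ]
      simpa using hm.symm⟩
  have hfree : ∀ μ ∈ N, ∀ x, ρ μ x = x → μ = 1 := by
    have step : ∀ μ ∈ N, ∀ x y, ρ μ x = x → D.Adj x y → ρ μ y = y := by
      intro μ hμ x y hx hy
      obtain ⟨γ, rfl⟩ := htr x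
      have h1 : ρ (γ⁻¹ * μ * γ) v0 = v0 := by simp [hx]
      have h2 : D.Adj v0 (ρ γ⁻¹ y) := by
        rw [← hA γ]; simpa using hy
      have h3 : ρ (γ⁻¹ * μ * γ) (ρ g v0) = ρ g v0 :=
        (hO.two hg hg2 ((hA _).adj h1 hg) hm.symm).resolve_right (hN2 _ (hN.conj_mem' _ hμ γ))
      have h4 := fix_other hO (hA _) h1 hg h3 h2
      simpa using h4
    intro μ hμ x hx
    apply hinj
    ext y
    have := hconn x y
    induction this with
    | refl => simpa using hx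
    | tail _ hyz ih => simpa using step μ hμ _ _ (by simpa using ih) hyz
  let π := QuotientGroup.mk' N
  have hπ : ∀ x, π x = 1 ↔ x ∈ N := fun x => QuotientGroup.eq_one_iff x
  have hπs : Function.Surjective π := QuotientGroup.mk'_surjective N
  have key : ∀ x y, (π x)⁻¹ * π y ∈ H.map π ↔ ∃ μ ∈ N, ρ μ (ρ x v0) = ρ y v0 := by
    intro x y
    constructor
    · rintro ⟨h, hh, e⟩
      refine ⟨y * h⁻¹ * x⁻¹, (hπ _).1 (by simp only [map_mul, map_inv, e]; group), ?_⟩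
      have := (hH _).1 (H.inv_mem hh)
      simp only [map_mul, Equiv.Perm.mul_apply]
      rw [map_inv ρ x]
      simp only [Equiv.Perm.coe_inv, Equiv.symm_apply_apply, this]
    · rintro ⟨μ, hμ, e⟩
      refine ⟨x⁻¹ * μ⁻¹ * y, (hH _).2 (by simp [← e]), ?_⟩
      simp only [map_mul, map_inv, (hπ _).2 hμ, inv_one, mul_one]
  have hc : (π g)⁻¹ * π a0 * π g ∉ H.map π := by
    rw [mul_assoc, ← map_mul, key]
    rintro ⟨μ, hμ, e⟩
    exact hN2 μ hμ (by simpa using e)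
  have hF : ∀ h ∈ H.map π, (π g)⁻¹ * h * π g ∈ H.map π ∨
      (π g)⁻¹ * (h * π a0) * π g ∈ H.map π := by
    rintro _ ⟨h, hh, rfl⟩
    by_cases e : ρ h (ρ g v0) = ρ g v0
    · left
      exact ⟨g⁻¹ * h * g, (hH _).2 (by simp [e]), by simp⟩
    · right
      have := (swap_eq hO (hA h) ((hH _).1 hh) hg hg2 hm e).2
      exact ⟨g⁻¹ * (h * a0) * g, (hH _).2 (by simp [this]), by simp⟩
  have hcore := core (H.map π) (π g) (π a) (π a0)
    (fun M hM hM0 x => by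
      obtain ⟨x, rfl⟩ := hπs x
      have hM' : (M.comap π).Normal := hM.comap π
      have hlt : N < M.comap π := by
        refine lt_of_le_of_ne (fun y hy => by
          rw [Subgroup.mem_comap, (hπ _).2 hy]; exact M.one_mem) (fun h => hM0 ?_)
        rw [eq_bot_iff]
        intro y hy
        obtain ⟨y, rfl⟩ := hπs y
        have : y ∈ M.comap π := hy
        rw [← h] at this
        exact (hπ _).2 this
      obtain ⟨μ, hμ, e⟩ : ∃ μ ∈ M.comap π, ρ μ (ρ g v0) = ρ a0 (ρ g v0) := by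
        by_contra h
        push Not at h
        exact hmax _ ⟨hM', h⟩ hlt
      have hU := hmin (M.comap π ⊔ Subgroup.zpowers g) (fun z hz => by
        have hgU : g ∈ M.comap π ⊔ Subgroup.zpowers g :=
          Subgroup.mem_sup_right (Subgroup.mem_zpowers g)
        rcases hO.two hg hg2 hz hm.symm with h | h
        · exact ⟨g, hgU, h.symm⟩
        · exact ⟨μ * g, Subgroup.mul_mem _ (Subgroup.mem_sup_left hμ) hgU, by simp [h, e]⟩)
      have hx : x ∈ M.comap π ⊔ Subgroup.zpowers g := by rw [hU]; trivial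
      obtain ⟨y, hy, z, hz, rfl⟩ := Subgroup.mem_sup_of_normal_left.1 hx
      obtain ⟨n, rfl⟩ := mem_powers_iff_mem_zpowers.2 hz
      exact ⟨π y, hy, n, by simp⟩)
    hc ⟨a0, ha0, rfl⟩
    hF
    (fun U hU => Subgroup.map_le_iff_le_comap.2 (hgen _ (fun t => by
      simpa [Subgroup.mem_comap] using hU t)))
    (by rw [← map_mul, ha2, map_one])
    (by simpa using congrArg π hcomm)
    (fun h => hne (hfree _ ((hπ _).1 (by simpa using h)) v0 ((hH _).1 hmem)))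
  have hcard : Nat.card (H.map π) = Nat.card H := by
    have hi : Function.Injective (π.comp H.subtype) := by
      rw [injective_iff_map_eq_one]
      intro x hx
      exact Subtype.ext (hfree _ ((hπ _).1 hx) v0 ((hH _).1 x.2))
    have e : (π.comp H.subtype).range = H.map π := by
      rw [MonoidHom.range_comp, Subgroup.range_subtype]
    rw [← e]
    exact (Nat.card_congr (MonoidHom.ofInjective hi).toEquiv).symm
  have hreg : ∀ (W : Type) (E : Digraph W) (P : Γ ⧸ N → W), Function.Surjective P →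
      (∀ x y, P x = P y ↔ x⁻¹ * y ∈ H.map π) → (∀ x, E.Adj (P x) (P (x * π g))) →
      (∀ x z, E.Adj (P x) z → z = P (x * π g) ∨ z = P (x * π a0 * π g)) → RegCover D E := by
    intro W E P h4 h5 h6 h7
    choose τ hτ using htr
    have hp : ∀ γ, P (π (τ (ρ γ v0))) = P (π γ) := fun γ =>
      (h5 _ _).2 ((key _ _).2 ⟨1, N.one_mem, by simp [hτ]⟩)
    refine ⟨fun x => P (π (τ x)), N.map ρ, fun z => ?_, ?_, ?_, fun x y => ?_, fun x => ?_⟩
    · obtain ⟨q, rfl⟩ := h4 z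
      obtain ⟨γ, rfl⟩ := hπs q
      exact ⟨ρ γ v0, hp γ⟩
    · rintro _ ⟨μ, _, rfl⟩
      exact hA μ
    · rintro _ ⟨μ, hμ, rfl⟩ x hx
      rw [hfree μ hμ x hx, map_one]
    · rw [h5, key, hτ, hτ]
      exact ⟨fun ⟨μ, hμ, e⟩ => ⟨ρ μ, ⟨μ, hμ, rfl⟩, e⟩, by
        rintro ⟨_, ⟨μ, hμ, rfl⟩, e⟩
        exact ⟨μ, hμ, e⟩⟩
    · obtain ⟨γ, rfl⟩ : ∃ γ, ρ γ v0 = x := ⟨_, hτ x⟩
      have a1 : D.Adj (ρ γ v0) (ρ (γ * g) v0) := by simpa using (hA γ _ _).2 hg
      have a2 : D.Adj (ρ γ v0) (ρ (γ * a0 * g) v0) := by simpa using (hA γ _ _).2 hg2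
      have n1 : ρ (γ * g) v0 ≠ ρ (γ * a0 * g) v0 := by simpa using hm.symm
      have b1 : E.Adj (P (π γ)) (P (π (γ * g))) := by simpa using h6 (π γ)
      have b2 : E.Adj (P (π γ)) (P (π (γ * a0 * g))) := by
        have e : P (π γ) = P (π (γ * a0)) := (h5 _ _).2 ⟨a0, ha0, by simp⟩
        rw [e]
        simpa using h6 (π (γ * a0))
      have n2 : P (π (γ * g)) ≠ P (π (γ * a0 * g)) := by
        rw [Ne, h5]
        have e : (π (γ * g))⁻¹ * π (γ * a0 * g) = (π g)⁻¹ * π a0 * π g := by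
          simp only [map_mul]; group
        rw [e]; exact hc
      simp only [hp]
      refine ⟨fun y hy => ?_, fun y hy z hz e => ?_, fun z hz => ?_⟩
      · rcases hO.two a1 a2 hy n1 with rfl | rfl
        · simpa only [Set.mem_ofPred_eq, hp] using b1
        · simpa only [Set.mem_ofPred_eq, hp] using b2
      · rcases hO.two a1 a2 hy n1 with rfl | rfl <;> rcases hO.two a1 a2 hz n1 with rfl | rfl
        · rfl
        · simp only [hp] at e; exact absurd e n2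
        · simp only [hp] at e; exact absurd e.symm n2
        · rfl
      · rcases h7 _ _ hz with rfl | rfl
        · exact ⟨_, a1, (hp _).trans (by simp)⟩
        · exact ⟨_, a2, (hp _).trans (by simp)⟩
  rcases hcore with ⟨r, s, f, P, hr, hs, h1, h2, h3, h4, h5, h6⟩ | hq
  · left
    refine ⟨r, s, f, hr, hs, h1, h2, hcard ▸ h3, hreg _ _ P h4 h5 h6 (fun x z hz => ?_)⟩
    refine px_two hs (h6 x) ?_ hz ?_
    · have e : P x = P (x * π a0) := (h5 _ _).2 ⟨a0, ha0, by simp⟩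
      rw [e]; exact h6 _
    · rw [Ne, h5]
      have e : (x * π g)⁻¹ * (x * π a0 * π g) = (π g)⁻¹ * π a0 * π g := by group
      rw [e]; exact hc
  · right
    obtain ⟨E, h1, h2, h3⟩ := coset_dig (H.map π) (π g) (π a0) hc ⟨a0, ha0, rfl⟩ hF
    exact ⟨Γ ⧸ N, inferInstance, inferInstance, H.map π, _, _, E, h1, hcard,
      hreg _ E _ QuotientGroup.mk_surjective (fun x y => QuotientGroup.eq) h2 h3, ⟨π, hπs⟩, hq⟩

end Pool.Agent.MP_89824e_co

end

section

namespace Pool.Agent.MP_89824e_co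

open Polynomial

theorem sol_main {V : Type} [Finite V] (D : Digraph V) (hout : ∀ v, {w | D.Adj v w}.ncard = 2)
    (hconn : ∀ u v, Relation.ReflTransGen D.Adj u v)
    (G : Type) [Group G] [Finite G] (H : Subgroup G) (S : Set G) (hp : IsPres D G H S) :
    ∃ K : ℕ, 2 ^ K ≤ Nat.card H ∧ HasPres D (2 ^ K) ∧ (K ≤ 1 ∨
      (∃ (r s : ℕ) (f : (ZMod 2)[X]), 0 < r ∧ 1 ≤ s ∧ Irreducible f ∧ f ∣ X ^ r - 1 ∧
        f.natDegree = s + K ∧ RegCover D (PX r s)) ∨
      (¬ Group.IsSolvable G ∧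
        ∃ (Q : Type) (_ : Group Q) (_ : Finite Q) (H' : Subgroup Q) (S' : Set Q) (W : Type)
          (E : Digraph W), IsPres E Q H' S' ∧ Nat.card H' = 2 ^ K ∧ RegCover D E ∧
          (∃ (L : Subgroup G) (π : L →* Q), Function.Surjective π) ∧
          commutator Q ≠ ⊥ ∧ ⁅commutator Q, commutator Q⁆ = commutator Q ∧
          (∀ N : Subgroup Q, N.Normal → N ≠ ⊥ → commutator Q ≤ N) ∧
          IsCyclic (Q ⧸ commutator Q))) := by
  classical
  have hO := out2_of_ncard hout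
  obtain ⟨hl, ρ, v0, hρ, htr0, hρH⟩ := pres_action hp
  obtain ⟨L, ⟨hL0, htr⟩, hmin⟩ := (wellFounded_lt (α := Subgroup (Equiv.Perm V))).has_min
    {L | L ≤ ρ.range ∧ ∀ x y, ∃ γ ∈ L, γ x = y} ⟨ρ.range, le_rfl, htr0⟩
  have hL : L ≤ autG D.Adj := hL0.trans hρ
  obtain ⟨v1, v2, -, hv1⟩ := hO v0
  obtain ⟨g, hgL, hg⟩ := htr v0 v1
  have hg1 : D.Adj v0 (g v0) := by rw [hg, hv1]; exact Or.inl rfl
  obtain ⟨v, hvd⟩ : ∃ v : ℕ → V, ∀ n, v n = (g ^ n) v0 := ⟨_, fun _ => rfl⟩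
  have hv0 : v 0 = v0 := by simp [hvd]
  have hvg : ∀ t n, (g ^ t) (v n) = v (t + n) := by
    intro t n
    rw [hvd, hvd, pow_add, Equiv.Perm.mul_apply]
  have hv : ∀ n, D.Adj (v n) (v (n + 1)) := by
    intro n
    rw [hvd, hvd, pow_succ, Equiv.Perm.mul_apply]
    exact ((hL (L.pow_mem hgL n) : IsAut _ _) _ _).2 hg1
  have hex : ∃ k, ∀ φ ∈ St L v k, φ (v (k + 1)) = v (k + 1) := by
    obtain ⟨_, ⟨k, rfl⟩, hk⟩ := (wellFounded_lt (α := Subgroup (Equiv.Perm V))).has_min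
      (Set.range (St L v)) ⟨_, 0, rfl⟩
    have e : St L v (k + 1) = St L v k := by
      by_contra h
      exact hk _ ⟨k + 1, rfl⟩ (lt_of_le_of_ne St_le h)
    exact ⟨k, fun φ hφ => (mem_St_succ.1 (e ▸ hφ)).2⟩
  obtain ⟨K, hK⟩ : ∃ K, Nat.find hex = K := ⟨_, rfl⟩
  have hr : ∀ φ ∈ St L v K, φ (v (K + 1)) = v (K + 1) := hK ▸ Nat.find_spec hex
  have hs : ∀ k < K, ∃ α ∈ St L v k, α (v (k + 1)) ≠ v (k + 1) := by
    intro k hk
    have := Nat.find_min hex (hK ▸ hk)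
    push Not at this
    exact this
  have h1 := St_eq_one hO le_rfl hL htr hv K hs hr (hconn _)
  have hcard := card_St hO hL hv K hs h1
  have hpres : HasPres D (2 ^ K) := hcard ▸ hasPres_of hl hL htr v
  refine ⟨K, ?_, hpres, ?_⟩
  · rw [← hcard]
    have h2 : St L v 0 ≤ St ρ.range v 0 := fun φ hφ => ⟨hL0 hφ.1, hφ.2⟩
    exact (Subgroup.card_le_of_le h2).trans (card_St_le ρ v0 hρH htr0 v)
  rcases Nat.lt_or_ge K 2 with hK2 | hK2
  · left; omega
  right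
  obtain ⟨J, rfl⟩ : ∃ J, K = J + 2 := ⟨K - 2, by omega⟩
  obtain ⟨a, ha, ham⟩ := hs (J + 1) (by omega)
  have ha2 : a * a = 1 := by
    rcases step_or hO hL hv ha ham ha with h | h
    · exact h1 _ h.1
    · exact absurd (mem_St_succ.1 h.1).2 ham
  have hsw : ∀ t k, t + k = J + 1 → (g ^ t)⁻¹ * a * g ^ t ∈ St L v k ∧
      ((g ^ t)⁻¹ * a * g ^ t) (v (k + 1)) ≠ v (k + 1) := by
    intro t k htk
    refine ⟨⟨L.mul_mem (L.mul_mem (L.inv_mem (L.pow_mem hgL t)) ha.1) (L.pow_mem hgL t),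
      fun i hi => ?_⟩, fun h => ham ?_⟩
    · simp only [Equiv.Perm.mul_apply]
      rw [hvg, ha.2 _ (by omega), ← hvg]; simp
    · simp only [Equiv.Perm.mul_apply] at h
      rw [Equiv.Perm.inv_eq_iff_eq, hvg, ← add_assoc, htk] at h
      exact h
  obtain ⟨hb, hbm⟩ := hsw 1 J (by omega)
  rw [pow_one] at hb hbm
  set b := g⁻¹ * a * g with hbd
  have hcomm : a * b = b * a := by
    have h2 : b * a * b⁻¹ ∈ St L v (J + 1) := by
      refine mem_St_succ.2 ⟨(St L v J).mul_mem ((St L v J).mul_mem hb (St_le ha))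
        ((St L v J).inv_mem hb), ?_⟩
      have h3 : D.Adj (v J) (b⁻¹ (v (J + 1))) :=
        (hL (L.inv_mem hb.1) : IsAut _ _).adj (((St L v J).inv_mem hb).2 J le_rfl) (hv J)
      have h4 := fix_other hO (hL ha.1) (ha.2 J (by omega)) (hv J) (ha.2 _ le_rfl) h3
      simp only [Equiv.Perm.mul_apply]
      rw [h4]; simp
    rcases step_or hO hL hv ha ham h2 with h | h
    · have h5 := h1 _ h.1
      calc a * b = (b * a * b⁻¹ * a) * (a * b) := by rw [h5, one_mul]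
        _ = b * a * b⁻¹ * (a * a) * b := by group
        _ = b * a := by rw [ha2]; group
    · have h5 := h1 _ h.1
      have : a = 1 := by simpa using h5
      exact absurd (by rw [this]; rfl) ham
  have hne : a * b ≠ 1 := by
    intro h
    have e : b = a := by
      calc b = (a * a) * b := by rw [ha2, one_mul]
        _ = a := by rw [mul_assoc, h, mul_one]
    exact hbm (by rw [e]; exact ha.2 _ le_rfl)
  obtain ⟨a0, ha0, ha0m⟩ := hs 0 (by omega)
  have hle : St L v 0 ≤ L := fun _ h => h.1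
  have hH : ∀ γ : L, γ ∈ (St L v 0).subgroupOf L ↔ L.subtype γ v0 = v0 := by
    intro γ
    rw [Subgroup.mem_subgroupOf, mem_St, ← hv0]
    exact ⟨fun h => h.2 0 le_rfl, fun h => ⟨γ.2, fun i hi => by
      obtain rfl : i = 0 := by omega
      exact h⟩⟩
  have hcov := cover D hO hconn L.subtype L.subtype_injective
    (fun γ => hL γ.2) v0 (fun x => by
      obtain ⟨γ, hγ, e⟩ := htr v0 x
      exact ⟨⟨γ, hγ⟩, e⟩)
    (fun U hU => by
      have h2 : U.map L.subtype ≤ L := Subgroup.map_subtype_le U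
      have h3 := trans_of (h2.trans hL) (hconn v0) (fun z hz => by
        obtain ⟨u, hu, e⟩ := hU z hz
        exact ⟨_, ⟨u, hu, rfl⟩, e⟩)
      have h4 : U.map L.subtype = L := by
        by_contra h
        exact hmin _ ⟨h2.trans hL0, h3⟩ (lt_of_le_of_ne h2 h)
      rw [eq_top_iff]
      intro x _
      have : (x : Equiv.Perm V) ∈ U.map L.subtype := by rw [h4]; exact x.2
      obtain ⟨y, hy, e⟩ := this
      rwa [← L.subtype_injective e])
    ((St L v 0).subgroupOf L) hH ⟨g, hgL⟩ ⟨a, ha.1⟩ ⟨a0, ha0.1⟩ hg1 ha0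
    (by simpa [hvd] using ha0m)
    (fun U hU => by
      have h2 := St_le_of_swaps (U := U.map L.subtype) hO hL hv (J + 2) (fun k hk => by
        obtain ⟨h3, h4⟩ := hsw (J + 1 - k) k (by omega)
        exact ⟨_, h3, ⟨_, hU (J + 1 - k), by simp⟩, h4⟩) h1
      intro x hx
      obtain ⟨y, hy, e⟩ := h2 hx
      rwa [← L.subtype_injective e])
    (Subtype.ext ha2) (Subtype.ext hcomm) (fun h => hne (congrArg Subtype.val h))
    ((hH _).2 (by
      have e1 := ha.2 0 (by omega)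
      have e2 := hb.2 0 (by omega)
      rw [hv0] at e1 e2
      change a (b v0) = v0
      rw [e2, e1]))
  rw [Nat.card_congr (Subgroup.subgroupOfEquivOfLe hle).toEquiv, hcard] at hcov
  rcases hcov with ⟨r, s, f, c1, c2, c3, c4, c5, c6⟩ | ⟨Q, _, _, H', S', W, E, c1, c2, c3, ⟨π, hπ⟩, c4⟩
  · rw [← pow_add] at c5
    exact Or.inl ⟨r, s, f, c1, c2, c3, c4, Nat.pow_right_injective le_rfl c5, c6⟩
  · have hs2 : Function.Surjective (π.comp (ρ.subgroupComap L)) :=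
      hπ.comp (fun y => by
        obtain ⟨x, hx⟩ := hL0 y.2
        exact ⟨⟨x, by rw [Subgroup.mem_comap, hx]; exact y.2⟩, Subtype.ext hx⟩)
    refine Or.inr ⟨fun hG => ?_, Q, inferInstance, inferInstance, H', S', W, E, c1, c2, c3,
      ⟨_, _, hs2⟩, c4⟩
    have : Group.IsSolvable Q := Group.isSolvable_of_surjective hs2
    exact (Group.IsSolvable.commutator_lt_of_ne_bot c4.1).ne c4.2.1

end Pool.Agent.MP_89824e_co

end

section

namespace Pool.Agent.MP_89824e_co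

open Polynomial
open scoped Pointwise

/-- a transitive action by automorphisms gives a presentation -/
lemma isPres_of {V : Type} {D : Digraph V} (hl : ∀ v, ¬ D.Adj v v) {G : Type} [Group G]
    (ρ : G →* Equiv.Perm V) (hA : ∀ g, IsAut D.Adj (ρ g)) (v0 : V) (htr : ∀ x, ∃ g, ρ g v0 = x)
    (H : Subgroup G) (hH : ∀ g, ρ g v0 = v0 ↔ g ∈ H) :
    IsPres D G H {g | D.Adj v0 (ρ g v0)} := by
  have hq : ∀ a b : G, a⁻¹ * b ∈ H ↔ ρ a v0 = ρ b v0 := by
    intro a b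
    rw [← hH, map_mul, map_inv, Equiv.Perm.mul_apply, Equiv.Perm.inv_eq_iff_eq, eq_comm]
  let f : G ⧸ H → V := Quotient.lift (fun g : G => ρ g v0)
    (fun a b hab => (hq a b).1 (QuotientGroup.leftRel_apply.1 hab))
  have hf : ∀ g : G, f (g : G ⧸ H) = ρ g v0 := fun g => rfl
  have hb : Function.Bijective f := by
    constructor
    · intro a b hab
      obtain ⟨a, rfl⟩ := QuotientGroup.mk_surjective a
      obtain ⟨b, rfl⟩ := QuotientGroup.mk_surjective b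
      exact QuotientGroup.eq.2 ((hq a b).2 hab)
    · intro y
      obtain ⟨g, h⟩ := htr y
      exact ⟨(g : G ⧸ H), h⟩
  refine ⟨?_, (Equiv.ofBijective f hb).symm, fun x y => ?_⟩
  · rw [Set.disjoint_left]
    intro g hg hgH
    simp only [Set.mem_ofPred_eq] at hg
    rw [(hH g).2 hgH] at hg
    exact hl _ hg
  · have e1 : D.Adj (ρ x v0) (ρ y v0) ↔ D.Adj v0 (ρ (x⁻¹ * y) v0) := by
      rw [← hA x v0]
      simp
    simp only [Equiv.symm_symm, Equiv.ofBijective_apply, hf]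
    rw [e1]
    constructor
    · intro h1
      exact ⟨_, ⟨1, H.one_mem, x⁻¹ * y, h1, rfl⟩, 1, H.one_mem, by simp⟩
    · rintro ⟨_, ⟨a, ha, s, hs, rfl⟩, b, hb, h3⟩
      rw [← h3]
      simp only [map_mul, Equiv.Perm.mul_apply]
      rw [(hH b).2 hb]
      exact (hA a).adj ((hH a).2 ha) hs

/-- the action on a disjoint union of copies -/
def prodAct {V C Z G : Type} [Group Z] [Group G] (ψ : C × Z ≃ V) (ρ : G →* Equiv.Perm C) :
    G × Z →* Equiv.Perm V where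
  toFun u := ψ.permCongr ((ρ u.1).prodCongr (Equiv.mulLeft u.2))
  map_one' := by ext x; simp
  map_mul' u w := by ext x; simp [Prod.map]

lemma prodAct_apply {V C Z G : Type} [Group Z] [Group G] (ψ : C × Z ≃ V)
    (ρ : G →* Equiv.Perm C) (u : G × Z) (c : C) (z : Z) :
    prodAct ψ ρ u (ψ (c, z)) = ψ (ρ u.1 c, u.2 * z) := by
  simp [prodAct]

section copies

variable {V C Z : Type} [Group Z] {D : Digraph V} {D0 : Digraph C} (ψ : C × Z ≃ V)
  (hψ : ∀ c z c' z', D.Adj (ψ (c, z)) (ψ (c', z')) ↔ z = z' ∧ D0.Adj c c')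

include hψ

lemma prodAct_aut {G : Type} [Group G] (ρ : G →* Equiv.Perm C) (hA : ∀ g, IsAut D0.Adj (ρ g))
    (u : G × Z) : IsAut D.Adj (prodAct ψ ρ u) := by
  intro x y
  obtain ⟨⟨c, z⟩, rfl⟩ := ψ.surjective x
  obtain ⟨⟨c', z'⟩, rfl⟩ := ψ.surjective y
  rw [prodAct_apply, prodAct_apply, hψ, hψ, hA, mul_right_inj]

lemma hasPres_copies [Finite Z] {k : ℕ} (h : HasPres D0 k) : HasPres D k := by
  obtain ⟨G, _, _, H, S, hp, hk⟩ := h
  obtain ⟨hl, ρ, c0, hρ, htr, hH⟩ := pres_action hp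
  refine ⟨G × Z, inferInstance, inferInstance, H.prod ⊥, _,
    isPres_of (fun v => ?_) (prodAct ψ ρ) (prodAct_aut ψ hψ ρ (fun g => hρ ⟨g, rfl⟩))
      (ψ (c0, 1)) (fun x => ?_) _ (fun u => ?_), ?_⟩
  · obtain ⟨⟨c, z⟩, rfl⟩ := ψ.surjective v
    rw [hψ]
    exact fun h => hl c h.2
  · obtain ⟨⟨c, z⟩, rfl⟩ := ψ.surjective x
    obtain ⟨_, ⟨g, rfl⟩, e⟩ := htr c0 c
    exact ⟨(g, z), by rw [prodAct_apply, e, mul_one]⟩
  · rw [prodAct_apply, ψ.apply_eq_iff_eq, Subgroup.mem_prod, Prod.mk.injEq, hH]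
    simp
  · rw [Nat.card_congr (Subgroup.prodEquiv H ⊥).toEquiv, Nat.card_prod, hk]
    simp

lemma regCover_copies {W : Type} {E : Digraph W} (h : RegCover D0 E) : RegCover D E := by
  obtain ⟨p, N, h1, h2, h3, h4, h5⟩ := h
  refine ⟨fun x => p (ψ.symm x).1, (prodAct ψ N.subtype).range, fun w => ?_, ?_, ?_,
    fun x y => ?_, fun x => ?_⟩
  · obtain ⟨c, rfl⟩ := h1 w
    exact ⟨ψ (c, 1), by simp⟩
  · rintro _ ⟨u, rfl⟩
    exact prodAct_aut ψ hψ N.subtype (fun n => h2 n n.2) u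
  · rintro _ ⟨⟨n, z⟩, rfl⟩ x hx
    obtain ⟨⟨c, z'⟩, rfl⟩ := ψ.surjective x
    rw [prodAct_apply, ψ.apply_eq_iff_eq, Prod.mk.injEq] at hx
    have e1 : n = 1 := Subtype.ext (h3 n n.2 c hx.1)
    have e2 : z = 1 := by simpa using hx.2
    rw [e1, e2]
    exact map_one _
  · obtain ⟨⟨c, z⟩, rfl⟩ := ψ.surjective x
    obtain ⟨⟨c', z'⟩, rfl⟩ := ψ.surjective y
    simp only [Equiv.symm_apply_apply]
    rw [h4]
    constructor
    · rintro ⟨n, hn, e⟩
      exact ⟨_, ⟨(⟨n, hn⟩, z' * z⁻¹), rfl⟩, by rw [prodAct_apply]; simp [e]⟩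
    · rintro ⟨_, ⟨⟨n, w⟩, rfl⟩, e⟩
      rw [prodAct_apply, ψ.apply_eq_iff_eq, Prod.mk.injEq] at e
      exact ⟨n, n.2, e.1⟩
  · obtain ⟨⟨c, z⟩, rfl⟩ := ψ.surjective x
    simp only [Equiv.symm_apply_apply]
    refine ⟨fun y hy => ?_, fun y hy y' hy' e => ?_, fun w hw => ?_⟩
    · obtain ⟨⟨c', z'⟩, rfl⟩ := ψ.surjective y
      simpa using (h5 c).1 ((hψ _ _ _ _).1 hy).2
    · obtain ⟨⟨c', z'⟩, rfl⟩ := ψ.surjective y
      obtain ⟨⟨c'', z''⟩, rfl⟩ := ψ.surjective y'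
      have a1 := (hψ _ _ _ _).1 hy
      have a2 := (hψ _ _ _ _).1 hy'
      rw [(h5 c).2.1 a1.2 a2.2 (by simpa using e), ← a1.1, ← a2.1]
    · obtain ⟨c', hc', e⟩ := (h5 c).2.2 hw
      exact ⟨ψ (c', z), (hψ _ _ _ _).2 ⟨rfl, hc'⟩, by simpa using e⟩

end copies

lemma exists_comp {V : Type} [Finite V] (D : Digraph V) (hO : Out2 D.Adj)
    (G : Type) [Group G] [Finite G] (H : Subgroup G) (S : Set G) (hp : IsPres D G H S) :
    ∃ (C Z : Type) (_ : Finite C) (_ : Group Z) (_ : Finite Z) (D0 : Digraph C) (ψ : C × Z ≃ V)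
      (G0 : Subgroup G) (H0 : Subgroup G0) (S0 : Set G0),
      (∀ c z c' z', D.Adj (ψ (c, z)) (ψ (c', z')) ↔ z = z' ∧ D0.Adj c c') ∧ Out2 D0.Adj ∧
      (∀ u v, Relation.ReflTransGen D0.Adj u v) ∧ IsPres D0 G0 H0 S0 ∧
      Nat.card H0 = Nat.card H := by
  obtain ⟨hl, ρ, v0, hρ, htr, hH⟩ := pres_action hp
  have hA : ∀ g, IsAut D.Adj (ρ g) := fun g => hρ ⟨g, rfl⟩
  have hmap : ∀ g x y, Relation.ReflTransGen D.Adj x y →
      Relation.ReflTransGen D.Adj (ρ g x) (ρ g y) := fun g x y h =>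
    h.lift (ρ g) (fun a b hab => (hA g a b).2 hab)
  let M : Submonoid G :=
    { carrier := {g | Relation.ReflTransGen D.Adj v0 (ρ g v0)}
      one_mem' := by simpa using Relation.ReflTransGen.refl
      mul_mem' := fun {a b} ha hb => by
        have := hmap a _ _ hb
        simpa using Relation.ReflTransGen.trans ha this }
  let G0 : Subgroup G :=
    { M with
      inv_mem' := fun {g} hg => by
        have e : g ^ (orderOf g - 1) = g⁻¹ := by
          rw [eq_inv_iff_mul_eq_one, ← pow_succ, Nat.sub_add_cancel (orderOf_pos g),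
            pow_orderOf_eq_one]
        exact e ▸ M.pow_mem hg _ }
  have hG0 : ∀ g, g ∈ G0 ↔ Relation.ReflTransGen D.Adj v0 (ρ g v0) := fun g => Iff.rfl
  have hHG : H ≤ G0 := fun h hh => by
    rw [hG0, (hH h).2 hh]
  let C := {x // Relation.ReflTransGen D.Adj v0 x}
  have hC : ∀ g ∈ G0, ∀ x, Relation.ReflTransGen D.Adj v0 x →
      Relation.ReflTransGen D.Adj v0 (ρ g x) := fun g hg x hx =>
    ((hG0 g).1 hg).trans (hmap g _ _ hx)
  let ρ0 : G0 →* Equiv.Perm C :=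
    { toFun := fun g => (ρ g).subtypePerm (fun x => ⟨fun h => by
        simpa using hC _ (G0.inv_mem g.2) _ h, hC _ g.2 x⟩)
      map_one' := by ext x; simp
      map_mul' := fun a b => by ext x; simp }
  have hρ0 : ∀ g (x : C), (ρ0 g x : V) = ρ g x := fun g x => rfl
  let D0 : Digraph C := ⟨fun x y => D.Adj x y⟩
  let c0 : C := ⟨v0, Relation.ReflTransGen.refl⟩
  have htr0 : ∀ x : C, ∃ g, ρ0 g c0 = x := by
    intro x
    obtain ⟨_, ⟨g, rfl⟩, e⟩ := htr v0 x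
    exact ⟨⟨g, by rw [hG0, e]; exact x.2⟩, Subtype.ext e⟩
  have hA0 : ∀ g, IsAut D0.Adj (ρ0 g) := fun g x y => hA g x y
  have hr0 : ∀ x : C, Relation.ReflTransGen D0.Adj c0 x := by
    rintro ⟨x, hx⟩
    induction hx with
    | refl => exact Relation.ReflTransGen.refl
    | tail h1 h2 ih => exact ih.tail h2
  have hn : Nat.card (G ⧸ G0) ≠ 0 := Nat.card_pos.ne'
  have : NeZero (Nat.card (G ⧸ G0)) := ⟨hn⟩
  let ε : Multiplicative (ZMod (Nat.card (G ⧸ G0))) ≃ G ⧸ G0 :=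
    (Finite.card_eq.1 (by simp)).some
  have hkey : ∀ (a b : G ⧸ G0) (c c' : C), Relation.ReflTransGen D.Adj (ρ a.out c) (ρ b.out c') →
      a = b := by
    intro a b c c' h
    obtain ⟨g, rfl⟩ := htr0 c'
    have h1 := (c.2.trans (by simpa [hρ0, c0] using hmap a.out⁻¹ _ _ h) :
      Relation.ReflTransGen D.Adj v0 (ρ (a.out⁻¹ * b.out * g) v0))
    have h2 : a.out⁻¹ * b.out ∈ G0 := by
      simpa using G0.mul_mem ((hG0 _).2 h1) (G0.inv_mem g.2)
    rw [← a.out_eq, ← b.out_eq]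
    exact QuotientGroup.eq.2 h2
  let f : C × Multiplicative (ZMod (Nat.card (G ⧸ G0))) → V := fun u => ρ (ε u.2).out u.1
  have hf : Function.Bijective f := by
    constructor
    · rintro ⟨c, z⟩ ⟨c', z'⟩ e
      have e1 : z = z' := ε.injective (hkey _ _ c c' (by
        change Relation.ReflTransGen D.Adj (f (c, z)) (f (c', z'))
        rw [e]))
      subst e1
      exact Prod.ext (Subtype.ext ((ρ _).injective e)) rfl
    · intro x
      obtain ⟨_, ⟨g, rfl⟩, rfl⟩ := htr v0 x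
      have h1 : (g : G ⧸ G0).out⁻¹ * g ∈ G0 := QuotientGroup.eq.1 (Quotient.out_eq _)
      exact ⟨(⟨_, (hG0 _).1 h1⟩, ε.symm g), by simp [f]⟩
  refine ⟨C, _, inferInstance, inferInstance, inferInstance, D0, Equiv.ofBijective f hf, G0,
    H.subgroupOf G0, _, fun c z c' z' => ?_, fun x => ?_, fun u v => ?_,
    isPres_of (D := D0) (fun v => hl v) ρ0 hA0 c0 htr0 _ (fun g => ?_),
    Nat.card_congr (Subgroup.subgroupOfEquivOfLe hHG).toEquiv⟩
  · constructor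
    · intro h
      have e1 : z = z' := ε.injective (hkey _ _ c c' (Relation.ReflTransGen.single h))
      subst e1
      exact ⟨rfl, (hA _ _ _).1 h⟩
    · rintro ⟨rfl, h⟩
      exact (hA _ _ _).2 h
  · obtain ⟨y, z, hyz, h⟩ := hO x
    refine ⟨⟨y, x.2.tail ((h y).2 (Or.inl rfl))⟩, ⟨z, x.2.tail ((h z).2 (Or.inr rfl))⟩,
      fun e => hyz (congrArg Subtype.val e), fun w => ?_⟩
    rw [Subtype.ext_iff, Subtype.ext_iff]
    exact h w
  · obtain ⟨g, rfl⟩ := htr0 u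
    have : Relation.ReflTransGen D0.Adj (ρ0 g c0) (ρ0 g ((ρ0 g)⁻¹ v)) :=
      (hr0 ((ρ0 g)⁻¹ v)).lift (ρ0 g) (fun a b hab => (hA0 g a b).2 hab)
    simpa using this
  · rw [Subgroup.mem_subgroupOf, ← hH, Subtype.ext_iff]
    rfl

theorem all_main {V : Type} [Finite V] (D : Digraph V) (hout : ∀ v, {w | D.Adj v w}.ncard = 2)
    (G : Type) [Group G] [Finite G] (H : Subgroup G) (S : Set G) (hp : IsPres D G H S) :
    ∃ K : ℕ, 2 ^ K ≤ Nat.card H ∧ HasPres D (2 ^ K) ∧ (K ≤ 1 ∨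
      (∃ (r s : ℕ) (f : (ZMod 2)[X]), 0 < r ∧ 1 ≤ s ∧ Irreducible f ∧ f ∣ X ^ r - 1 ∧
        f.natDegree = s + K ∧ RegCover D (PX r s)) ∨
      (¬ Group.IsSolvable G ∧
        ∃ (Q : Type) (_ : Group Q) (_ : Finite Q) (H' : Subgroup Q) (S' : Set Q) (W : Type)
          (E : Digraph W), IsPres E Q H' S' ∧ Nat.card H' = 2 ^ K ∧ RegCover D E ∧
          (∃ (L : Subgroup G) (π : L →* Q), Function.Surjective π) ∧
          commutator Q ≠ ⊥ ∧ ⁅commutator Q, commutator Q⁆ = commutator Q ∧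
          (∀ N : Subgroup Q, N.Normal → N ≠ ⊥ → commutator Q ≤ N) ∧
          IsCyclic (Q ⧸ commutator Q))) := by
  obtain ⟨C, Z, _, _, _, D0, ψ, G0, H0, S0, hψ, hO, hc, hp0, hcard⟩ :=
    exists_comp D (out2_of_ncard hout) G H S hp
  obtain ⟨K, h1, h2, h3⟩ := sol_main D0 (ncard_of_out2 hO) hc G0 H0 S0 hp0
  refine ⟨K, hcard ▸ h1, hasPres_copies ψ hψ h2, h3.imp_right (Or.imp ?_ ?_)⟩
  · rintro ⟨r, s, f, a1, a2, a3, a4, a5, a6⟩
    exact ⟨r, s, f, a1, a2, a3, a4, a5, regCover_copies ψ hψ a6⟩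
  · rintro ⟨a0, Q, _, _, H', S', W, E, a1, a2, a3, ⟨L, π, hπ⟩, a4⟩
    refine ⟨fun hG => a0 inferInstance, Q, inferInstance, inferInstance, H', S', W, E, a1, a2,
      regCover_copies ψ hψ a3, ⟨L.map G0.subtype,
        π.comp (L.equivMapOfInjective _ G0.subtype_injective).symm.toMonoidHom,
        hπ.comp (L.equivMapOfInjective _ G0.subtype_injective).symm.surjective⟩, a4⟩

end Pool.Agent.MP_89824e_co

end
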